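import Pool.Agent.TH466.QT.Main
import Pool.Agent.W602.GT.Gm

/-!
Unirational projective varieties have dense sets of rational points over finitely generated fields.
-/

set_option autoImplicit false
set_option linter.overlappingInstances false
set_option linter.unusedSectionVars false


namespace Pool.Agent.TH466.QT

open Pool.Agent.W602.GT
open Pool.Agent.W619.TW (IsUnirational)

variable {k : Type} [Field k]

/-- The projective variety with generic point `x` is potentially dense: its points with coordinates
in some finitely generated field (a number field, if `k` is the field of algebraic numbers) are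
Zariski-dense. -/
def PotentiallyDense (k : Type) [Field k] {L : Type} [Field L] [Algebra k L] {M : ℕ}
    (x : Fin (M + 1) → L) : Prop :=
  ∃ T : Finset k, ∀ G : MvPolynomial (Fin (M + 1)) k, IsForm G →
    (∀ z ∈ VarPts k x, (∀ i, z i ∈ Subfield.closure (T : Set k)) → val z G = 0) → val x G = 0

theorem dense_of_unirational [CharZero k] {L : Type} [Field L] [Algebra k L] {w M : ℕ}
    (h : IsUnirational k L w) {x : Fin (M + 1) → L} (hx : x ≠ 0) : PotentiallyDense k x := by
  classical
  obtain ⟨φ⟩ := h
  obtain ⟨i0, hi0⟩ := Function.ne_iff.1 hx
  have hi0' : x i0 ≠ 0 := hi0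
  set R := MvPolynomial (Fin w) k
  set Q := FractionRing R
  let u : Fin (M + 1) → Q := fun i => φ (x i / x i0)
  have hu0 : u i0 = 1 := by
    simp only [u]
    rw [div_self hi0', map_one]
  obtain ⟨b, hb⟩ := IsLocalization.exist_integer_multiples_of_finset (nonZeroDivisors R)
    (Finset.univ.image u)
  have hb' : ∀ i, ∃ p : R, algebraMap R Q p = algebraMap R Q b * u i := by
    intro i
    obtain ⟨p, hp⟩ := hb (u i) (Finset.mem_image_of_mem u (Finset.mem_univ i))
    exact ⟨p, by rw [hp, Algebra.smul_def]⟩
  choose p hp using hb'
  have hb0 : (b : R) ≠ 0 := nonZeroDivisors.ne_zero b.2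
  have hbQ : algebraMap R Q b ≠ 0 := by
    rw [Ne, map_eq_zero_iff _ (IsFractionRing.injective R Q)]
    exact hb0
  have hpi0 : p i0 = b := by
    apply IsFractionRing.injective R Q
    rw [hp, hu0, mul_one]
  have hform : ∀ (G : MvPolynomial (Fin (M + 1)) k), IsForm G →
      (val x G = 0 ↔ MvPolynomial.aeval p G = 0) := by
    rintro G ⟨d, hd⟩
    have h1 : val (fun i => x i0 * (x i / x i0)) G = x i0 ^ d * val (fun i => x i / x i0) G :=
      val_smul hd _ _
    have h2 : (fun i => x i0 * (x i / x i0)) = x := funext fun i => by field_simp
    rw [h2] at h1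
    have h3 : φ (val (fun i => x i / x i0) G) = val u G := by
      unfold val
      rw [← MvPolynomial.comp_aeval_apply]
    have h4 : val (fun i => algebraMap R Q b * u i) G = algebraMap R Q b ^ d * val u G :=
      val_smul hd _ _
    have h5 : val (fun i => algebraMap R Q b * u i) G = algebraMap R Q (MvPolynomial.aeval p G) := by
      have h6 : (fun i => algebraMap R Q b * u i) = fun i => algebraMap R Q (p i) :=
        funext fun i => (hp i).symm
      rw [h6]
      unfold val
      exact (MvPolynomial.aeval_algebraMap_apply Q p G)
    constructor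
    · intro h0
      rw [h1, mul_eq_zero, or_iff_right (pow_ne_zero _ hi0')] at h0
      rw [h0, map_zero] at h3
      rw [← h3, mul_zero, h5, map_eq_zero_iff _ (IsFractionRing.injective R Q)] at h4
      exact h4
    · intro h0
      rw [h5, h0, map_zero] at h4
      have h6 : val u G = 0 := by
        rcases mul_eq_zero.1 h4.symm with h | h
        · exact absurd h (pow_ne_zero _ hbQ)
        · exact h
      rw [h6, map_eq_zero] at h3
      rw [h1, h3, mul_zero]
  let T : Finset k := Finset.univ.biUnion fun i => (p i).support.image (p i).coeff
  have hcoef : ∀ i (a : Fin w → k), (∀ j, a j ∈ Subfield.closure (T : Set k)) →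
      MvPolynomial.eval a (p i) ∈ Subfield.closure (T : Set k) := by
    intro i a ha
    rw [MvPolynomial.eval_eq]
    refine sum_mem fun m hm => mul_mem (Subfield.subset_closure ?_)
      (prod_mem fun j _ => pow_mem (ha j) _)
    simp only [T, Finset.coe_biUnion, Set.mem_iUnion]
    exact ⟨i, Finset.mem_coe.2 (Finset.mem_univ i), Finset.mem_coe.2
      (Finset.mem_image_of_mem _ hm)⟩
  refine ⟨T, fun G hG hz => ?_⟩
  rw [hform G hG]
  have key : (b : R) * MvPolynomial.aeval p G = 0 := by
    refine MvPolynomial.funext_set (fun _ => Set.range (Nat.cast : ℕ → k))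
      (fun _ => Set.infinite_range_of_injective Nat.cast_injective) fun a ha => ?_
    rw [map_zero, map_mul]
    by_cases hba : MvPolynomial.eval a (b : R) = 0
    · rw [hba, zero_mul]
    · have haT : ∀ j, a j ∈ Subfield.closure (T : Set k) := by
        intro j
        obtain ⟨m, hm⟩ := ha j (Set.mem_univ j)
        rw [← hm]
        exact natCast_mem _ m
      have hev : ∀ G' : MvPolynomial (Fin (M + 1)) k,
          val (fun i => MvPolynomial.eval a (p i)) G' =
            MvPolynomial.eval a (MvPolynomial.aeval p G') := by
        intro G'
        unfold val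
        have := MvPolynomial.comp_aeval_apply (MvPolynomial.aeval a : R →ₐ[k] k) (p := G') (f := p)
        exact this.symm
      have h1 : val (fun i => MvPolynomial.eval a (p i)) G = 0 := by
        refine hz _ ⟨fun h0 => hba ?_, fun G' hG' h0 => ?_⟩ fun i => hcoef i a haT
        · have := congrFun h0 i0
          simp only [hpi0] at this
          exact this
        · rw [hev, (hform G' hG').1 h0, map_zero]
      rw [← hev, h1, mul_zero]
  exact (mul_eq_zero.1 key).resolve_left hb0

end Pool.Agent.TH466.QT
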