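import Pool.Agent.TH466.QG.Top

/-!
Rational curves on the projective varieties dominated by a variety with function field `E (σ)`.
The proof of `exists_curve` follows `Pool/Agent/TH766/MC/Rat.lean` (helper766), which treats the
projective models of `E (σ)` over the complex numbers.
-/

set_option autoImplicit false
set_option linter.overlappingInstances false
set_option linter.unusedSectionVars false

open Module IntermediateField Polynomial

namespace Pool.Agent.TH466.QT.RC

variable {k : Type} [Field k] [IsAlgClosed k]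

/-- all homogeneous equations of `f` hold for `z` -/
def ModelPoint {K : Type} [Field K] [Algebra k K] {N : ℕ} (f : Fin (N + 1) → K)
    (z : Fin (N + 1) → k) : Prop :=
  z ≠ 0 ∧ ∀ (Q : MvPolynomial (Fin (N + 1)) k) (d : ℕ), Q.IsHomogeneous d →
    MvPolynomial.aeval f Q = 0 → MvPolynomial.eval z Q = 0

theorem aeval_smul {K : Type} [Field K] [Algebra k K] {N : ℕ} (z : Fin (N + 1) → K) (c : K)
    {Q : MvPolynomial (Fin (N + 1)) k} {d : ℕ} (hQ : Q.IsHomogeneous d) :
    MvPolynomial.aeval (fun i => c * z i) Q = c ^ d * MvPolynomial.aeval z Q := by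
  rw [MvPolynomial.aeval_def, MvPolynomial.aeval_def, MvPolynomial.eval₂_eq', MvPolynomial.eval₂_eq',
    Finset.mul_sum]
  refine Finset.sum_congr rfl fun m hm => ?_
  have h1 : ∑ i, m i = d := by
    have h2 := hQ (MvPolynomial.mem_support_iff.1 hm)
    rw [Finsupp.weight_apply, Finsupp.sum_fintype _ _ (fun i => by simp)] at h2
    simpa using h2
  have h3 : ∏ i, (c * z i) ^ m i = c ^ d * ∏ i, z i ^ m i := by
    simp only [mul_pow]
    rw [Finset.prod_mul_distrib, Finset.prod_pow_eq_pow_sum, h1]
  rw [h3]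
  ring

/-- a point of an affine variety -/
theorem exists_algHom {E : Type} [Field E] [Algebra k E] (S : Set E) (hS : S.Finite) :
    Nonempty (Algebra.adjoin k S →ₐ[k] k) := by
  have hft : Algebra.FiniteType k (Algebra.adjoin k S) :=
    (Subalgebra.fg_iff_finiteType _).1 ⟨hS.toFinset, by simp⟩
  obtain ⟨m, hm⟩ := Ideal.exists_maximal (Algebra.adjoin k S)
  let _ : Field (Algebra.adjoin k S ⧸ m) := Ideal.Quotient.field m
  have hfin : Module.Finite k (Algebra.adjoin k S ⧸ m) :=
    finite_of_finite_type_of_isJacobsonRing k (Algebra.adjoin k S ⧸ m)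
  have halg : Algebra.IsAlgebraic k (Algebra.adjoin k S ⧸ m) := Algebra.IsAlgebraic.of_finite k _
  exact ⟨(IsAlgClosed.lift : (Algebra.adjoin k S ⧸ m) →ₐ[k] k).comp (Ideal.Quotient.mkₐ k m)⟩

/-- **Rational curves.** -/
theorem exists_curve {K : Type} [Field K] [Algebra k K] (E : IntermediateField k K) {σ : K}
    (hσ : Transcendental E σ) (htop : E⟮σ⟯ = ⊤) {N : ℕ} {f : Fin (N + 1) → K} (hf0 : f 0 ≠ 0)
    (hf : ∀ E : IntermediateField k K, (∀ i, f i / f 0 ∈ E) → Algebra.IsAlgebraic E K) :
    ∃ g : Fin (N + 1) → k[X], (∀ t, ModelPoint f fun i => (g i).eval t) ∧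
      ∃ s t, ∀ c : k, ∃ i, (g i).eval s ≠ c * (g i).eval t := by
  classical
  have hinj : Function.Injective (aeval σ : E[X] →ₐ[E] K) := transcendental_iff_injective.1 hσ
  have hfrac : ∀ z : K, ∃ r s : E[X], s ≠ 0 ∧ z = aeval σ r / aeval σ s := by
    intro z
    obtain ⟨r, s, h⟩ := (mem_adjoin_simple_iff E z).1 (htop ▸ mem_top : z ∈ E⟮σ⟯)
    by_cases hs : s = 0
    · refine ⟨0, 1, one_ne_zero, ?_⟩
      rw [h, hs]
      simp
    · exact ⟨r, s, hs, h⟩
  choose r s hs hrs using fun i => hfrac (f i / f 0)
  have hs' : ∀ i, aeval σ (s i) ≠ 0 := fun i h => hs i (hinj (by rw [h, map_zero]))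
  -- common denominator
  let S : E[X] := ∏ i, s i
  have hS0 : S ≠ 0 := Finset.prod_ne_zero_iff.2 fun i _ => hs i
  let p : Fin (N + 1) → E[X] := fun i => r i * ∏ j ∈ Finset.univ.erase i, s j
  have hp : ∀ i, f i / f 0 * aeval σ S = aeval σ (p i) := by
    intro i
    have h1 : S = s i * ∏ j ∈ Finset.univ.erase i, s j :=
      (Finset.mul_prod_erase _ _ (Finset.mem_univ i)).symm
    rw [h1, hrs i, map_mul, map_mul, ← mul_assoc, div_mul_cancel₀ _ (hs' i)]
  -- the greatest common divisor
  obtain ⟨g, hg⟩ := IsPrincipalIdealRing.principal (Ideal.span (Set.range p))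
  have hg' : Ideal.span (Set.range p) = Ideal.span {g} := hg
  have hpg : ∀ i, ∃ p' : E[X], p i = g * p' := fun i => by
    have h1 : p i ∈ Ideal.span {g} := hg' ▸ Ideal.subset_span ⟨i, rfl⟩
    exact Ideal.mem_span_singleton.1 h1
  choose p' hp' using hpg
  have hp0 : p 0 ≠ 0 := by
    intro h
    have h1 := hp 0
    rw [h, div_self hf0, one_mul, map_zero] at h1
    exact hS0 (hinj (by rw [h1, map_zero]))
  have hg0 : g ≠ 0 := by
    rintro rfl
    exact hp0 (by rw [hp' 0, zero_mul])
  obtain ⟨a, ha⟩ : ∃ a : Fin (N + 1) → E[X], ∑ i, a i * p i = g := by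
    have h1 : g ∈ Ideal.span (Set.range p) := hg' ▸ Ideal.mem_span_singleton_self g
    exact (Ideal.mem_span_range_iff_exists_fun).1 h1
  have hbez : ∑ i, a i * p' i = 1 := by
    apply mul_left_cancel₀ hg0
    rw [mul_one, Finset.mul_sum]
    nth_rw 2 [← ha]
    exact Finset.sum_congr rfl fun i _ => by rw [hp' i]; ring
  have hg0' : aeval σ g ≠ 0 := fun h => hg0 (hinj (by rw [h, map_zero]))
  have hS0' : aeval σ S ≠ 0 := fun h => hS0 (hinj (by rw [h, map_zero]))
  obtain ⟨h, hh0, hfp⟩ : ∃ h : K, h ≠ 0 ∧ ∀ i, f i = h * aeval σ (p' i) := by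
    refine ⟨f 0 * aeval σ g / aeval σ S, div_ne_zero (mul_ne_zero hf0 hg0') hS0', fun i => ?_⟩
    have h1 := hp i
    rw [hp' i, map_mul] at h1
    field_simp
    field_simp at h1
    linear_combination h1
  -- one of the polynomials is not constant
  obtain ⟨i1, hi1⟩ : ∃ i, (p' i).natDegree ≠ 0 := by
    by_contra hcon
    push Not at hcon
    have h1 : ∀ i, f i / f 0 ∈ E := by
      intro i
      have h2 : ∀ j, aeval σ (p' j) ∈ E := by
        intro j
        rw [eq_C_of_natDegree_eq_zero (hcon j), aeval_C]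
        exact ((p' j).coeff 0).2
      have h3 : f i / f 0 = aeval σ (p' i) / aeval σ (p' 0) := by
        rw [hfp i, hfp 0, mul_div_mul_left _ _ hh0]
      rw [h3]
      exact E.div_mem (h2 i) (h2 0)
    exact hσ ((hf E h1).isAlgebraic σ)
  have hl0 : (p' i1).leadingCoeff ≠ 0 := by
    rw [ne_eq, leadingCoeff_eq_zero]
    rintro h
    rw [h] at hi1
    exact hi1 natDegree_zero
  -- the affine variety
  let T : Set E := (⋃ i, ((p' i).coeffs : Set E)) ∪ (⋃ i, ((a i).coeffs : Set E)) ∪
    {(p' i1).leadingCoeff⁻¹}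
  have hT : T.Finite := ((Set.finite_iUnion fun i => Finset.finite_toSet _).union
    (Set.finite_iUnion fun i => Finset.finite_toSet _)).union (Set.finite_singleton _)
  obtain ⟨ψ⟩ := exists_algHom (k := k) T hT
  set R := Algebra.adjoin k T with hR
  have hlift : ∀ P : E[X], (∀ j, P.coeff j ∈ R) → ∃ P' : R[X], P'.map (algebraMap R E) = P := by
    intro P hP
    have h1 : P ∈ Polynomial.lifts (algebraMap R E) := by
      rw [Polynomial.lifts_iff_coeff_lifts]
      intro j
      exact ⟨⟨_, hP j⟩, rfl⟩
    exact (Polynomial.mem_lifts _).1 h1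
  have hcoeff : ∀ (P : E[X]) (_ : (P.coeffs : Set E) ⊆ T) (j), P.coeff j ∈ R := by
    intro P hP j
    by_cases h : P.coeff j = 0
    · rw [h]; exact R.zero_mem
    · exact Algebra.subset_adjoin (hP (Polynomial.coeff_mem_coeffs h))
  choose P hP using fun i => hlift (p' i) (hcoeff _ fun z hz =>
    Or.inl (Or.inl (Set.mem_iUnion.2 ⟨i, hz⟩)))
  choose A hA using fun i => hlift (a i) (hcoeff _ fun z hz =>
    Or.inl (Or.inr (Set.mem_iUnion.2 ⟨i, hz⟩)))
  have hRinj : Function.Injective (algebraMap R E) := Subtype.val_injective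
  have hminj : Function.Injective (Polynomial.map (algebraMap R E)) := Polynomial.map_injective _ hRinj
  have hbez' : ∑ i, A i * P i = 1 := by
    apply hminj
    rw [Polynomial.map_sum, Polynomial.map_one, ← hbez]
    exact Finset.sum_congr rfl fun i _ => by rw [Polynomial.map_mul, hP, hA]
  let ψ' : R →+* k := ψ.toRingHom
  refine ⟨fun i => (P i).map ψ', ?_, ?_⟩
  · intro t
    have hb : ∑ i, ((A i).map ψ').eval t * ((P i).map ψ').eval t = 1 := by
      have h1 := congrArg (fun Q : R[X] => (Q.map ψ').eval t) hbez'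
      simpa [Polynomial.map_sum, eval_finsetSum] using h1
    refine ⟨fun h => ?_, ?_⟩
    · rw [Finset.sum_eq_zero fun i _ => by
        have : ((P i).map ψ').eval t = 0 := congrFun h i
        rw [this, mul_zero]] at hb
      exact zero_ne_one hb
    · intro Q d hQ hQf
      -- the equation in `K`
      have h1 : MvPolynomial.aeval (fun i => aeval σ (p' i)) Q = 0 := by
        have h2 : f = fun i => h * aeval σ (p' i) := funext hfp
        rw [h2, aeval_smul _ _ hQ] at hQf
        exact (mul_eq_zero.1 hQf).resolve_left (pow_ne_zero _ hh0)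
      -- in `E[X]`
      have h3 : MvPolynomial.aeval p' Q = 0 := by
        apply hinj
        rw [map_zero, ← h1]
        have h4 := MvPolynomial.map_aeval (R := k) p' ((aeval σ : E[X] →ₐ[E] K).toRingHom) Q
        rw [MvPolynomial.aeval_def]
        rw [MvPolynomial.coe_eval₂Hom] at h4
        refine h4.trans ?_
        congr 1
        refine RingHom.ext fun z => ?_
        rw [RingHom.comp_apply, Polynomial.algebraMap_apply]
        exact (aeval_C (A := K) σ (algebraMap k E z)).trans rfl
      -- in `R[X]`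
      have h5 : MvPolynomial.aeval P Q = 0 := by
        apply hminj
        rw [Polynomial.map_zero, ← h3]
        have h6 := MvPolynomial.map_aeval (R := k) P (Polynomial.mapRingHom (algebraMap R E)) Q
        rw [Polynomial.coe_mapRingHom] at h6
        rw [h6, MvPolynomial.coe_eval₂Hom, MvPolynomial.aeval_def]
        have h7 : (fun i => Polynomial.map (algebraMap R E) (P i)) = p' := funext hP
        rw [h7]
        congr 1
        refine RingHom.ext fun z => ?_
        rw [RingHom.comp_apply, Polynomial.coe_mapRingHom, Polynomial.algebraMap_apply,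
          Polynomial.map_C, Polynomial.algebraMap_apply]
        rfl
      have h8 := congrArg (fun Z : R[X] => (Z.map ψ').eval t) h5
      simp only [Polynomial.map_zero, eval_zero] at h8
      rw [← h8]
      have h9 := MvPolynomial.map_aeval (R := k) P
        ((Polynomial.evalRingHom t).comp (Polynomial.mapRingHom ψ')) Q
      simp only [RingHom.comp_apply, Polynomial.coe_mapRingHom, Polynomial.coe_evalRingHom] at h9
      rw [h9, MvPolynomial.coe_eval₂Hom, MvPolynomial.eval, MvPolynomial.coe_eval₂Hom]
      congr 1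
      refine RingHom.ext fun z => ?_
      rw [RingHom.comp_apply, RingHom.comp_apply, Polynomial.coe_mapRingHom,
        Polynomial.algebraMap_apply, Polynomial.map_C, Polynomial.coe_evalRingHom, eval_C]
      exact (ψ.commutes z).symm
  · have hdeg : ((P i1).map ψ').natDegree ≠ 0 := by
      have h1 : (P i1).natDegree = (p' i1).natDegree := by
        rw [← hP i1, Polynomial.natDegree_map_eq_of_injective hRinj]
      have h2 : algebraMap R E (P i1).leadingCoeff = (p' i1).leadingCoeff := by
        rw [← hP i1, Polynomial.leadingCoeff_map_of_injective hRinj]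
      have h3 : (p' i1).leadingCoeff⁻¹ ∈ R := Algebra.subset_adjoin (Or.inr rfl)
      have h4 : (P i1).leadingCoeff * ⟨_, h3⟩ = 1 := by
        apply hRinj
        rw [map_mul, h2, map_one]
        exact mul_inv_cancel₀ hl0
      have h5 : ψ' (P i1).leadingCoeff ≠ 0 := by
        intro h6
        have h7 := congrArg ψ' h4
        rw [map_mul, h6, zero_mul, map_one] at h7
        exact zero_ne_one h7
      rw [Polynomial.natDegree_map_of_leadingCoeff_ne_zero _ h5, h1]
      exact hi1
    obtain ⟨t, ht⟩ := IsAlgClosed.exists_root ((P i1).map ψ') fun h => hdeg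
      (natDegree_eq_of_degree_eq_some h)
    have hne : (P i1).map ψ' ≠ 0 := fun h => hdeg (by rw [h, natDegree_zero])
    obtain ⟨s', hs'⟩ : ∃ s, ((P i1).map ψ').eval s ≠ 0 := by
      by_contra hcon
      push Not at hcon
      exact hne (Polynomial.funext fun s => by rw [hcon, eval_zero])
    refine ⟨s', t, fun c => ⟨i1, ?_⟩⟩
    have ht' : ((P i1).map ψ').eval t = 0 := ht
    rw [ht', mul_zero]
    exact hs'



end Pool.Agent.TH466.QT.RC
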