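import Mathlib

/-!
The degree of the Galois closure.
-/

set_option autoImplicit false
set_option linter.overlappingInstances false

open IntermediateField

namespace Pool.Agent.TH466.QT

theorem card_normalClosure {L K' : Type} [Field L] [Field K'] [Algebra L K'] [CharZero L]
    [FiniteDimensional L K'] :
    Module.finrank L (normalClosure L K' (AlgebraicClosure K')) ≤ (Module.finrank L K').factorial := by
  classical
  set Ω := AlgebraicClosure K'
  have : Algebra.IsAlgebraic L Ω := Algebra.IsAlgebraic.trans L K' Ω
  have hac : IsAlgClosure L Ω := ⟨inferInstance, inferInstance⟩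
  have hnor : Normal L Ω := IsAlgClosure.normal L Ω
  set N := normalClosure L K' Ω
  have : FiniteDimensional L N := inferInstance
  have : Normal L N := inferInstance
  have : IsGalois L N := ⟨⟩
  rw [← IsGalois.card_aut_eq_finrank L N]
  let S := (K' →ₐ[L] N)
  have hS : Fintype.card S ≤ Module.finrank L K' := by
    have h1 := card_algHom_le_finrank L K' N
    rwa [Nat.card_eq_fintype_card] at h1
  let φ : (N ≃ₐ[L] N) → Equiv.Perm S := fun σ =>
    { toFun := fun f => (σ : N →ₐ[L] N).comp f
      invFun := fun f => (σ.symm : N →ₐ[L] N).comp f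
      left_inv := fun f => by ext x; simp
      right_inv := fun f => by ext x; simp }
  have hφ : Function.Injective φ := by
    intro σ τ h
    have h1 : ∀ (f : K' →ₐ[L] N) (x : K'), σ (f x) = τ (f x) := by
      intro f x
      have h2 := congrArg (fun p : Equiv.Perm S => (p f : K' →ₐ[L] N) x) h
      exact h2
    let E : IntermediateField L N := (AlgHom.equalizer (σ : N →ₐ[L] N) (τ : N →ₐ[L] N)).toIntermediateField
      (by
        intro x hx
        rw [AlgHom.mem_equalizer] at hx ⊢
        rw [map_inv₀, map_inv₀, hx])
    have h2 : N ≤ E.map N.val := by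
      change normalClosure L K' Ω ≤ _
      rw [normalClosure_def]
      refine iSup_le fun f => ?_
      rintro _ ⟨x, rfl⟩
      have h3 : ∀ x, f x ∈ N := fun x => AlgHom.fieldRange_le_normalClosure f ⟨x, rfl⟩
      let f' : K' →ₐ[L] N := AlgHom.codRestrict f N.toSubalgebra h3
      refine ⟨f' x, ?_, rfl⟩
      change σ (f' x) = τ (f' x)
      exact h1 f' x
    ext ⟨x, hx⟩
    obtain ⟨z, hz, hzx⟩ := h2 hx
    have h4 : z = ⟨x, hx⟩ := Subtype.ext hzx
    subst h4
    have h5 : σ (⟨x, hx⟩ : N) = τ ⟨x, hx⟩ := hz
    exact congrArg Subtype.val h5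
  rw [Nat.card_eq_fintype_card]
  calc Fintype.card (N ≃ₐ[L] N) ≤ Fintype.card (Equiv.Perm S) := Fintype.card_le_of_injective φ hφ
    _ = (Fintype.card S).factorial := Fintype.card_perm
    _ ≤ (Module.finrank L K').factorial := Nat.factorial_le hS

end Pool.Agent.TH466.QT
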