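import Pool.Agent.TH466.QT.War
import Pool.Agent.W602.GT.STorF

/-!
Sparse systems with constant circuits.
-/

set_option autoImplicit false
set_option linter.overlappingInstances false
set_option linter.unusedSectionVars false

open FF IntermediateField Pool.Agent.W603.LV

namespace Pool.Agent.TH466.QT

open Pool.Agent.W602.GT Pool.Agent.TH466.QG

variable {k : Type} [Field k] [CharZero k] [IsAlgClosed k] {n : ℕ} {ι : Type}
  {K : Type} [Field K] [Algebra k K]

theorem rational_of_sparse {F : ι → MvPolynomial (Fin (n + 1)) k} {s N w : ℕ}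
    (hF : ∀ e, IsPowSparse ∅ s N (F e)) {y : Fin (n + 1) → K} (hy : SubVar F K w y)
    (hcomp : IsComponent F y) (hcr : ∀ x ∈ cr k K s N, ∃ c : k, algebraMap k K c = x) :
    ∃ t : Fin w → K, AlgebraicIndependent k t ∧ IntermediateField.adjoin k (Set.range t) = ⊤ := by
  classical
  have hK : CharZero K := charZero_of_injective_algebraMap (algebraMap k K).injective
  have hy' : SubVarU ∅ F K w y := ⟨hy.ne, fun j hj => absurd hj (Set.notMem_empty j), hy.mem,
    hy.gen, hy.dim⟩
  have hcomp' : IsComponentU ∅ F y := by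
    obtain ⟨H, hH, hH0, h⟩ := hcomp
    exact ⟨H, hH, hH0, fun x hx hxH => h x ⟨hx.1, hx.2.2⟩ hxH⟩
  obtain ⟨i0, σ, b, a, c, hT, -⟩ := tor_frame (fun e => (hF e).1) hy' hcomp' (by
    intro e C a a'
    obtain ⟨N', hN', hdvd⟩ := (hF e).2.2
    let U : Fin (C.m + 1) → K := fun j => ∏ l, y l ^ (ex (C.e j) l / N')
    have hUpow : ∀ j, U j ^ N' = ∏ l, y l ^ (ex (C.e j) l) := by
      intro j
      simp only [U]
      rw [← Finset.prod_pow]
      refine Finset.prod_congr rfl fun l _ => ?_
      rw [← pow_mul]
      congr 1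
      exact Nat.div_mul_cancel (hdvd _ (ex_mem (C.e j)) l (Set.notMem_empty l))
    let c' : Fin (C.m + 1) → k := fun j => C.c j * (F e).coeff (ex (C.e j))
    have hval : ∀ j, c' j • U j ^ N' = C.c j • gg y (F e) (C.e j) := by
      intro j
      rw [hUpow, gg_eq, Algebra.smul_def, Algebra.smul_def, map_mul, mul_assoc]
    have hne : ∀ j, c' j • U j ^ N' ≠ 0 := by
      intro j
      rw [hval]
      exact smul_ne_zero (C.hc j) (gg_ne _)
    have hU1 : ∀ j, U j ≠ 0 := by
      intro j h0
      have h1 := hne j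
      rcases Nat.eq_zero_or_pos N' with h2 | h2
      · have h4 : U j = 1 := by
          simp only [U]
          rw [h2]
          simp
        rw [h4] at h0
        exact one_ne_zero h0
      · apply h1
        rw [h0, zero_pow h2.ne', smul_zero]
    have hcirc : IsCirc k s N C.m N' U c' := by
      refine ⟨?_, hN', hU1, fun j h0 => hne j (by rw [h0, zero_smul]), ?_, ?_⟩
      · have h1 := Fintype.card_le_of_injective _ C.he
        rw [Fintype.card_fin] at h1
        exact h1.trans ((gg_card _ _).trans (hF e).2.1)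
      · simp only [hval]
        exact C.rel
      · simp only [hval]
        exact C.lin
    obtain ⟨c0, hc0⟩ := hcr _ ⟨C.m, N', U, c', a, a', hcirc, rfl⟩
    refine ⟨c0, ?_⟩
    rw [hc0, hval, hval])
  exact ⟨σ, hT.basis.1, hT.top⟩

end Pool.Agent.TH466.QT
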