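import Pool.Agent.TH466.QT.Tens
import Pool.Agent.W602.GT.SpecDefs

/-!
A subfield of general type gives a Bogomolov sheaf.
-/

set_option autoImplicit false
set_option linter.overlappingInstances false
set_option linter.unusedSectionVars false

open FF IntermediateField

namespace Pool.Agent.TH466.QT

open Pool.Agent.W602.GT Pool.Agent.TH466.QG
open Pool.Agent.W619.PQ
open Pool.Agent.W619.Y
open Pool.Agent.W603.LV (Ge)

variable {k L : Type} [Field k] [CharZero k] [Field L] [Algebra k L]

/-- `dy 0 ∧ … ∧ dy (d - 1)` as an alternating function of derivations -/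
noncomputable def dform (d : ℕ) (y : Fin d → L) :
    AlternatingMap L (Derivation k L L) L (Fin d) where
  toFun D := (Matrix.of fun j i => D j (y i)).det
  map_update_add' := by
    intro inst D p X Y
    obtain rfl : inst = instDecidableEqFin d := Subsingleton.elim _ _
    have hu : ∀ Z : Derivation k L L, (Matrix.of fun j i => (Function.update D p Z j) (y i)) =
        Matrix.updateRow (Matrix.of fun j i => D j (y i)) p fun i => Z (y i) := by
      intro Z
      ext j i
      rw [Matrix.updateRow_apply, Matrix.of_apply, Matrix.of_apply]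
      by_cases hj : j = p
      · subst hj
        rw [if_pos rfl, Function.update_self]
      · rw [if_neg hj, Function.update_of_ne hj]
    rw [hu, hu, hu]
    have h := Matrix.det_updateRow_add (Matrix.of fun j i => D j (y i)) p
      (fun i => X (y i)) (fun i => Y (y i))
    rw [← h]
    congr 1
  map_update_smul' := by
    intro inst D p f X
    obtain rfl : inst = instDecidableEqFin d := Subsingleton.elim _ _
    have hu : ∀ Z : Derivation k L L, (Matrix.of fun j i => (Function.update D p Z j) (y i)) =
        Matrix.updateRow (Matrix.of fun j i => D j (y i)) p fun i => Z (y i) := by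
      intro Z
      ext j i
      rw [Matrix.updateRow_apply, Matrix.of_apply, Matrix.of_apply]
      by_cases hj : j = p
      · subst hj
        rw [if_pos rfl, Function.update_self]
      · rw [if_neg hj, Function.update_of_ne hj]
    rw [hu, hu]
    have h := Matrix.det_updateRow_smul (Matrix.of fun j i => D j (y i)) p f
      (fun i => X (y i))
    rw [smul_eq_mul, ← h]
    congr 1
  map_eq_zero_of_eq' := by
    intro D i j h hij
    refine Matrix.det_zero_of_row_eq hij ?_
    funext l
    simp only [Matrix.of_apply, h]

theorem derLog_reg {P : Place k L} {D : Derivation k L L} (h : DerLog P D) : DerReg P D := by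
  intro f hf
  by_cases hf0 : f = 0
  · rw [hf0, map_zero]
    exact P.reg_zero
  · have h1 := P.reg_mul (h f) hf
    rwa [div_mul_cancel₀ _ hf0] at h1

/-- A variety which dominates a variety of general type of positive dimension is not special. -/
theorem not_special {n d : ℕ} (hn : Algebra.trdeg k L = n) (M : IntermediateField k L)
    [Algebra.EssFiniteType k M] (hd : 1 ≤ d) (hG : GeneralType k M d) :
    ¬ Special k L n (fun _ => False) := by
  classical
  intro hS
  obtain ⟨hM, m, hm, ω, hω, hreg, D0, h0, hind⟩ := hG
  obtain ⟨B, hB⟩ := exists_isTranscendenceBasis k M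
  have hcard := hB.cardinalMk_eq_trdeg
  rw [hM] at hcard
  obtain ⟨φ⟩ : Nonempty (Fin d ≃ B) := by
    rw [← Cardinal.eq, Cardinal.mk_fin]
    exact hcard.symm
  let y : Fin d → M := fun i => (φ i : M)
  have hy : IsTranscendenceBasis k y := hB.comp_equiv φ
  choose E hE using fun j => exists_dual (k := k) y hy j
  have hE' : ∀ i j, E i (y j) = if i = j then 1 else 0 := by
    intro i j
    rw [hE i j]
    by_cases h : i = j
    · subst h; simp
    · rw [if_neg h, if_neg (Ne.symm h)]
  have hfr : ∀ j, ω j D0 = _ := fun j => pluri_frame (hω j) y hy E hE' D0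
  have ha : ∀ j, ω j D0 ≠ 0 → ω j E ≠ 0 := by
    intro j hj h
    apply hj
    rw [hfr j, h, mul_zero]
  have hratio : ∀ i : Fin d, ω i.succ D0 / ω 0 D0 = ω i.succ E / ω 0 E := by
    intro i
    have h1 : ω 0 D0 ≠ 0 := h0
    rw [hfr 0] at h1
    rw [hfr i.succ, hfr 0, mul_div_mul_left _ _ (left_ne_zero_of_mul h1)]
  have hyL : AlgebraicIndependent k (fun i => (y i : L)) :=
    hy.1.map' (f := M.val) M.val.toRingHom.injective
  obtain ⟨D, hD⟩ := exists_dual_of_indep hyL
  have key : ∀ w : Place k L, Divisorial n w → ∀ X : Fin d → Derivation k L L,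
      (∀ i, DerReg w (X i)) → ∀ j, w.Reg (((ω j E : M) : L) *
        (dform (k := k) d (fun i => (y i : L)) X) ^ m) := by
    intro w hw X hX j
    obtain ⟨Z, z, hz, hZ, hge⟩ := pYLOC k L M d n m hM hn (fun y hy => fin_over y hy) (ω j) (hω j)
      (fun u hu => hreg u hu j) y E hy hE' w hw
    have h2 : dform (k := k) d (fun i => (y i : L)) X =
        Z.det * (Matrix.of fun j c => X j (z c)).det := by
      change (Matrix.of fun j i => X j (y i : L)).det = _
      have h3 : (Matrix.of fun j i => X j (y i : L)) =
          (Matrix.of fun j c => X j (z c)) * Z.transpose := by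
        ext j i
        rw [Matrix.mul_apply, Matrix.of_apply, hZ]
        exact Finset.sum_congr rfl fun c _ => by
          rw [Matrix.of_apply, Matrix.transpose_apply, mul_comm]
      rw [h3, Matrix.det_mul, Matrix.det_transpose, mul_comm]
    rw [h2, mul_pow, ← mul_assoc]
    have h3 : Ge w 0 ((Matrix.of fun j c => X j (z c)).det ^ m) := by
      have h4 := Pool.Agent.W619.TW.ge_prod (v := w) (a := 0)
        (f := fun l : Fin m => (Matrix.of fun j c => X j (z c)).det)
        (fun l => ge_det w _ fun j c => hX j (z c) (hz c))
      simpa using h4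
    have h5 := hge.mul h3
    rw [add_zero] at h5
    exact h5
  refine hS d hd ⟨dform (k := k) d (fun i => (y i : L)), ?_, m, hm, fun j => ((ω j E : M) : L),
    fun P hP X hX j => key P hP X (fun i => derLog_reg (hX i)) j, fun P hP _ X hX j =>
    key P hP X hX j, ?_, ?_⟩
  · intro h
    have h1 := congrArg (fun θ : AlternatingMap L (Derivation k L L) L (Fin d) => θ D) h
    change (Matrix.of fun j i => D j (y i : L)).det = 0 at h1
    have h3 : (Matrix.of fun j i => D j (y i : L)) = (1 : Matrix (Fin d) (Fin d) L) := by
      ext j i
      rw [Matrix.of_apply, hD j i, Matrix.one_apply]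
      by_cases h : i = j
      · subst h; simp
      · rw [if_neg h, if_neg (Ne.symm h)]
    rw [h3, Matrix.det_one] at h1
    exact one_ne_zero h1
  · intro h
    exact ha 0 h0 (Subtype.ext h)
  · have h1 : AlgebraicIndependent k (fun i : Fin d => (ω i.succ D0 / ω 0 D0 : M)) := hind
    simp only [hratio] at h1
    exact h1.map' (f := M.val) M.val.toRingHom.injective

end Pool.Agent.TH466.QT
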