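import Pool.Agent.TH466.QT.Main
import Pool.Agent.TH466.QT.Spec
import Pool.Agent.TH466.QT.Spa
import Pool.Agent.TH466.QT.Nor

/-!
Varieties dominated by covers of systems of high powers: special varieties and tensor
differentials.
-/

set_option autoImplicit false
set_option linter.overlappingInstances false
set_option linter.unusedSectionVars false

open FF IntermediateField Pool.Agent.W603.LV

namespace Pool.Agent.TH466.QT

open Pool.Agent.W602.GT Pool.Agent.TH466.QG
open Pool.Agent.W619.TW (TensorVanish IsUnirational)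

variable {k : Type} [Field k] [CharZero k] [IsAlgClosed k]

theorem gal_main {K : Type} [Field K] [Algebra k K] {s N w r : ℕ} (hN1 : 1 ≤ N)
    (hw : Algebra.trdeg k K = w) (hne : ∃ x ∈ cr k K s N, ∀ c : k, algebraMap k K c ≠ x)
    (hN : r * (w * ((s + 4) * ((s - 1) * (s - 2) / 2))) ≤ N)
    {K' L : Type} [Field K'] [Field L] [Algebra k K'] [Algebra k L] [Algebra K K'] [Algebra L K']
    [IsScalarTower k K K'] [IsScalarTower k L K'] [Algebra.IsAlgebraic K K']
    [FiniteDimensional L K'] [IsGalois L K'] (hr : Module.finrank L K' ≤ r) :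
    (∃ b : ℕ, 1 ≤ b ∧ b ≤ w ∧ ∃ M : IntermediateField k L, GeneralType k M b) ∧
      ¬ TensorVanish k L w ∧ ¬ Special k L w (fun _ => False) := by
  have hK' : Algebra.trdeg k K' = w := by
    rw [← hw]
    exact trdeg_alg
  have hL : Algebra.trdeg k L = w := by
    rw [← hK']
    exact trdeg_alg.symm
  obtain ⟨x, hx, hxc⟩ := hne
  have hle := trdeg_le_of_injective (E0 k K' s N).val (E0 k K' s N).val.toRingHom.injective
  rw [hK'] at hle
  obtain ⟨b, hb⟩ := Cardinal.lt_aleph0.1 (hle.trans_lt Cardinal.natCast_lt_aleph0)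
  have hb1 : 1 ≤ b := by
    rw [Nat.one_le_iff_ne_zero]
    rintro rfl
    rw [Nat.cast_zero, trdeg_eq_zero_iff] at hb
    let φ : K →ₐ[k] K' := IsScalarTower.toAlgHom k K K'
    have h1 : φ x ∈ E0 k K' s N :=
      adjoin_le_E0 (IntermediateField.subset_adjoin k _ (cr_map φ hx))
    have h2 : IsAlgebraic k (⟨φ x, h1⟩ : E0 k K' s N) := hb.isAlgebraic _
    obtain ⟨c, hc⟩ := const_of_alg h2
    apply hxc c
    apply (algebraMap K K').injective
    rw [← IsScalarTower.algebraMap_apply]
    exact congrArg (fun z : E0 k K' s N => (z : K')) hc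
  obtain ⟨hbw, M, hess, hM⟩ := exists_general (K := K') (L := L) hN1 hK' hb hb1 hr hN
  refine ⟨⟨b, hb1, hbw, M, hM⟩, ?_, not_special hL M hb1 hM⟩
  obtain ⟨htr, m, hm, ω, hω, hreg, D, hD0, -⟩ := hM
  exact not_vanish hL M htr hb1 hm (ω 0) (hω 0) (fun u hu => hreg u hu 0) D hD0

/-- Galois of degree at most `r`, or of degree `m` with `m ! ≤ r`. -/
theorem dom_main {K : Type} [Field K] [Algebra k K] {s N w r : ℕ} (hN1 : 1 ≤ N)
    (hw : Algebra.trdeg k K = w) (hne : ∃ x ∈ cr k K s N, ∀ c : k, algebraMap k K c ≠ x)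
    (hN : r * (w * ((s + 4) * ((s - 1) * (s - 2) / 2))) ≤ N)
    {K' L : Type} [Field K'] [Field L] [Algebra k K'] [Algebra k L] [Algebra K K'] [Algebra L K']
    [IsScalarTower k K K'] [IsScalarTower k L K'] [Algebra.IsAlgebraic K K']
    [FiniteDimensional L K'] (hr : (IsGalois L K' ∧ Module.finrank L K' ≤ r) ∨
      (Module.finrank L K').factorial ≤ r) :
    (∃ b : ℕ, 1 ≤ b ∧ b ≤ w ∧ ∃ M : IntermediateField k L, GeneralType k M b) ∧
      ¬ TensorVanish k L w ∧ ¬ Special k L w (fun _ => False) := by
  rcases hr with ⟨hgal, hr⟩ | hr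
  · exact gal_main hN1 hw hne hN (K' := K') (L := L) hr
  · have hL : CharZero L := charZero_of_injective_algebraMap (algebraMap k L).injective
    let Ω := AlgebraicClosure K'
    let N' := normalClosure L K' Ω
    have h1 : Algebra.IsAlgebraic L Ω := Algebra.IsAlgebraic.trans L K' Ω
    have hac : IsAlgClosure L Ω := ⟨inferInstance, inferInstance⟩
    have hnor : Normal L Ω := IsAlgClosure.normal L Ω
    have : FiniteDimensional L N' := inferInstance
    have : Normal L N' := inferInstance
    have : IsGalois L N' := ⟨⟩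
    letI : Algebra K N' := ((algebraMap K' N').comp (algebraMap K K')).toAlgebra
    haveI : IsScalarTower K K' N' := IsScalarTower.of_algebraMap_eq fun _ => rfl
    haveI : IsScalarTower k L N' := inferInstance
    haveI : IsScalarTower k K' N' := by
      refine IsScalarTower.of_algebraMap_eq fun x => ?_
      rw [IsScalarTower.algebraMap_apply k L K', ← IsScalarTower.algebraMap_apply L K' N',
        ← IsScalarTower.algebraMap_apply k L N']
    haveI : IsScalarTower k K N' := by
      refine IsScalarTower.of_algebraMap_eq fun x => ?_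
      rw [IsScalarTower.algebraMap_apply K K' N', ← IsScalarTower.algebraMap_apply k K K',
        ← IsScalarTower.algebraMap_apply k K' N']
    haveI : Algebra.IsAlgebraic K' N' := by
      have h2 : Algebra.IsAlgebraic L N' := inferInstance
      exact Algebra.IsAlgebraic.tower_top (K := L) K'
    haveI : Algebra.IsAlgebraic K N' := Algebra.IsAlgebraic.trans K K' N'
    exact gal_main hN1 hw hne hN (K' := N') (L := L) (card_normalClosure.trans hr)

/-- **Main theorem.** -/
theorem quot_main {n : ℕ} {ι : Type} {F : ι → MvPolynomial (Fin (n + 1)) k} {s N : ℕ}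
    (hF : HighPowers s N F) (hN1 : 1 ≤ N) {K : Type} [Field K] [Algebra k K] {w : ℕ}
    {y : Fin (n + 1) → K} (hy : SubVar F K w y) (hcomp : IsComponent F y) {r : ℕ}
    (hN : r * (w * ((s + 4) * ((s - 1) * (s - 2) / 2))) ≤ N) :
    (∃ t : Fin w → K, AlgebraicIndependent k t ∧
      IntermediateField.adjoin k (Set.range t) = ⊤) ∨
    ∀ (K' L : Type) [Field K'] [Field L] [Algebra k K'] [Algebra k L] [Algebra K K']
      [Algebra L K'] [IsScalarTower k K K'] [IsScalarTower k L K'] [Algebra.IsAlgebraic K K']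
      [FiniteDimensional L K'], ((IsGalois L K' ∧ Module.finrank L K' ≤ r) ∨
        (Module.finrank L K').factorial ≤ r) →
      (∃ b : ℕ, 1 ≤ b ∧ b ≤ w ∧ ∃ M : IntermediateField k L, GeneralType k M b) ∧
        ¬ TensorVanish k L w ∧ ¬ Special k L w (fun _ => False) := by
  by_cases hcr : ∀ x ∈ cr k K s N, ∃ c : k, algebraMap k K c = x
  · left
    rcases hF with hF | hF
    · exact rational_of_linear hy hcomp (waring_const hF hN1 hy.mem hcr)
    · exact rational_of_sparse hF hy hcomp hcr
  · right
    push Not at hcr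
    intro K' L _ _ _ _ _ _ _ _ _ _ hr
    exact dom_main hN1 hy.dim hcr hN hr

end Pool.Agent.TH466.QT
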