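import Pool.Agent.TH466.QT.Rat

/-!
Quotients: the image field of general type.
-/

set_option autoImplicit false
set_option linter.overlappingInstances false
set_option linter.unusedSectionVars false

open FF IntermediateField

namespace Pool.Agent.TH466.QT

open Pool.Agent.W602.GT Pool.Agent.TH466.QG

variable {k : Type} [Field k] [CharZero k] [IsAlgClosed k]

/-- Let `K` have circuits of high powers which are not constant and let `L` be the fixed field of a
group of order at most `r`. Then `L` has a subfield of general type of positive transcendence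
degree. -/
theorem exists_general {K L : Type} [Field K] [Field L] [Algebra k K] [Algebra k L] [Algebra L K]
    [IsScalarTower k L K] [FiniteDimensional L K] [IsGalois L K] {s N r w b : ℕ} (hN1 : 1 ≤ N)
    (hw : Algebra.trdeg k K = w) (hb : Algebra.trdeg k (E0 k K s N) = b) (hb1 : 1 ≤ b)
    (hr : Module.finrank L K ≤ r)
    (hN : r * (w * ((s + 4) * ((s - 1) * (s - 2) / 2))) ≤ N) :
    b ≤ w ∧ ∃ M : IntermediateField k L, Algebra.EssFiniteType k M ∧ GeneralType k M b := by
  classical
  have hbw : b ≤ w := by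
    have h1 := trdeg_le_of_injective (E0 k K s N).val (E0 k K s N).val.toRingHom.injective
    rw [hb, hw] at h1
    exact_mod_cast h1
  refine ⟨hbw, ?_⟩
  obtain ⟨m, d, V, c, a, a', hms, hNd, hV0, hc, hsum, hlin, hbas⟩ := hasCirc_E0 (K := K) hN1 hb
  let G := K ≃ₐ[L] K
  have hfinG : Fintype G := Fintype.ofFinite G
  let S : Set K := Set.range fun q : G × (Σ i, Fin (m i + 1)) => q.1 (V q.2.1 q.2.2 : K)
  have hS : S.Finite := Set.finite_range _
  let E1 : IntermediateField k K := IntermediateField.adjoin k S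
  have hess : Algebra.EssFiniteType k E1 :=
    IntermediateField.essFiniteType_iff.2 (IntermediateField.fg_adjoin_of_finite hS)
  have hE : E1 ≤ E0 k K s N := by
    rw [IntermediateField.adjoin_le_iff]
    rintro _ ⟨⟨g, i, j⟩, rfl⟩
    exact E0_map ((g : K →ₐ[L] K).restrictScalars k) (V i j).2
  have hVE : ∀ i j, (V i j : K) ∈ E1 := fun i j =>
    IntermediateField.subset_adjoin k _ ⟨⟨1, i, j⟩, rfl⟩
  have hstab : ∀ (g : G) (x : K), x ∈ E1 → g x ∈ E1 := by
    intro g x hx
    let φ : K →ₐ[k] K := (g : K →ₐ[L] K).restrictScalars k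
    have h1 : φ x ∈ E1.map φ := ⟨x, hx, rfl⟩
    rw [IntermediateField.adjoin_map] at h1
    refine IntermediateField.adjoin.mono k _ _ ?_ h1
    rintro _ ⟨_, ⟨⟨g', i, j⟩, rfl⟩, rfl⟩
    exact ⟨⟨g * g', i, j⟩, rfl⟩
  -- the circuits in `E1`
  let V' : ∀ i, Fin (m i + 1) → E1 := fun i j => ⟨(V i j : K), hVE i j⟩
  let φ : E1 →ₐ[k] E0 k K s N := IntermediateField.inclusion hE
  have hV' : ∀ i, IsCirc k s N (m i) (d i) (V' i) (c i) := fun i =>
    IsCirc.comap φ ⟨hms i, hNd i, hV0 i, hc i, hsum i, hlin i⟩
  have hcirc : HasCirc k s N b E1 := by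
    refine ⟨m, d, V', c, a, a', fun i => (hV' i).ms, fun i => (hV' i).Nd, fun i => (hV' i).hU,
      fun i => (hV' i).hc, fun i => (hV' i).sum, fun i => (hV' i).lin, ?_⟩
    refine IsTranscendenceBasis.of_comp φ φ.toRingHom.injective ?_
    have h1 : (φ ∘ fun i => (c i (a i) • V' i (a i) ^ d i) / (c i (a' i) • V' i (a' i) ^ d i)) =
        fun i => (c i (a i) • V i (a i) ^ d i) / (c i (a' i) • V i (a' i) ^ d i) := by
      funext i
      exact Subtype.ext rfl
    rw [h1]
    exact hbas
  -- the action
  let act : MulSemiringAction G E1 :=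
    { smul := fun g x => ⟨g x, hstab g x x.2⟩
      one_smul := fun x => Subtype.ext rfl
      mul_smul := fun g h x => Subtype.ext rfl
      smul_zero := fun g => Subtype.ext (map_zero g)
      smul_add := fun g x y => Subtype.ext (map_add g _ _)
      smul_one := fun g => Subtype.ext (map_one g)
      smul_mul := fun g x y => Subtype.ext (map_mul g _ _) }
  have hsmul : ∀ (g : G) (x : E1), ((g • x : E1) : K) = g (x : K) := fun g x => rfl
  have hcomm : SMulCommClass G k E1 := ⟨fun g t x => Subtype.ext (by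
    rw [hsmul]
    change g (t • (x : K)) = t • g (x : K)
    exact map_smul ((g : K →ₐ[L] K).restrictScalars k) t (x : K))⟩
  let M0 : IntermediateField k E1 := FixedPoints.intermediateField (F := k) (E := E1) G
  have hfd : FiniteDimensional M0 E1 :=
    inferInstanceAs (FiniteDimensional (FixedPoints.subfield G E1) E1)
  have hcard : Module.finrank M0 E1 ≤ r := by
    have h1 : Module.finrank M0 E1 ≤ Fintype.card G := FixedPoints.finrank_le_card G E1
    rw [← Nat.card_eq_fintype_card, IsGalois.card_aut_eq_finrank] at h1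
    exact h1.trans hr
  have hgen : GeneralType k M0 b := by
    refine general_corr (K := E1) (K' := E1) (L := M0) hb1 hcirc hcard (le_trans ?_ hN)
    exact Nat.mul_le_mul_left _ (Nat.mul_le_mul_right _ hbw)
  have hess0 : Algebra.EssFiniteType k M0 := ess_below (K := E1)
  -- the embedding in `L`
  let R : Subalgebra k K := (IsScalarTower.toAlgHom k L K).range
  let f : M0 →ₐ[k] K := E1.val.comp M0.val
  have hf : ∀ x : M0, f x ∈ R := by
    intro x
    have h1 : ∀ g : K ≃ₐ[L] K, g (f x) = f x := by
      intro g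
      have h2 := x.2 g
      exact congrArg (fun z : E1 => (z : K)) h2
    obtain ⟨z, hz⟩ := (IsGalois.mem_range_algebraMap_iff_fixed (F := L) (f x)).2 h1
    exact ⟨z, hz⟩
  let f' : M0 →ₐ[k] R := f.codRestrict R hf
  let ψ : M0 →ₐ[k] L := ((AlgEquiv.ofInjectiveField (IsScalarTower.toAlgHom k L K)).symm :
    R →ₐ[k] L).comp f'
  let ψ' : M0 →ₐ[k] ψ.fieldRange := ψ.codRestrict ψ.fieldRange.toSubalgebra fun x => ⟨x, rfl⟩
  let e : M0 ≃ₐ[k] ψ.fieldRange := AlgEquiv.ofBijective ψ' ⟨ψ'.toRingHom.injective, by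
    rintro ⟨_, x, rfl⟩
    exact ⟨x, rfl⟩⟩
  refine ⟨ψ.fieldRange, ?_, general_of_equiv e hgen⟩
  exact (Algebra.EssFiniteType.iff_of_algEquiv e).1 hess0

end Pool.Agent.TH466.QT
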