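import Pool.Agent.TH466.QT.Cur
import Pool.Agent.W602.GT.Gm

/-!
Rational curves on the projective varieties dominated by a ruled variety.
-/

set_option autoImplicit false
set_option linter.overlappingInstances false
set_option linter.unusedSectionVars false

open IntermediateField Polynomial

namespace Pool.Agent.TH466.QT.RC

open Pool.Agent.W602.GT

variable {k : Type} [Field k] [IsAlgClosed k]

/-- There is no rational curve on the projective variety with the generic point `x`: every map from
the affine line to it (given by polynomials `g i` whose values are homogeneous coordinates of points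
of the variety) is constant. In particular, over the complex numbers, this is so if every
holomorphic map from `ℂ` to the variety is constant. -/
def NoRationalCurve (k : Type) [Field k] {L : Type} [Field L] [Algebra k L] {M : ℕ}
    (x : Fin (M + 1) → L) : Prop :=
  ∀ g : Fin (M + 1) → k[X], (∀ t, (fun i => (g i).eval t) ∈ VarPts k x) →
    ∀ s t, ∃ c : k, ∀ i, (g i).eval s = c * (g i).eval t

theorem curve_of_ruled {K L : Type} [Field K] [Algebra k K] [Field L] [Algebra k L] [Algebra L K]
    [IsScalarTower k L K] [FiniteDimensional L K] (hK : Ruled k K) {M : ℕ} {x : Fin (M + 1) → L}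
    (hx : x 0 ≠ 0) (hgen : coords k x = ⊤) : ¬ NoRationalCurve k x := by
  intro hno
  obtain ⟨C, σ, hσ, htop⟩ := hK
  let φ : L →ₐ[k] K := IsScalarTower.toAlgHom k L K
  have hφ0 : φ (x 0) ≠ 0 := by rw [Ne, map_eq_zero]; exact hx
  obtain ⟨g, hg, s, t, hst⟩ := exists_curve C hσ htop (f := fun i => φ (x i)) hφ0 (by
    intro E hE
    have h1 : E.comap φ = ⊤ := by
      rw [eq_top_iff, ← hgen]
      unfold coords
      rw [IntermediateField.adjoin_le_iff]
      rintro _ ⟨i, j, hj, rfl⟩
      change φ (x i / x j) ∈ E
      have h2 : φ (x i / x j) = (φ (x i) / φ (x 0)) / (φ (x j) / φ (x 0)) := by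
        have h3 : φ (x j) ≠ 0 := by rw [Ne, map_eq_zero]; exact hj
        rw [map_div₀]
        field_simp
      rw [h2]
      exact div_mem (hE i) (hE j)
    have h2 : ∀ l : L, algebraMap L K l ∈ E := by
      intro l
      have h3 : l ∈ E.comap φ := by rw [h1]; trivial
      exact h3
    let ρ : L →+* E := (algebraMap L K).codRestrict E.toSubfield h2
    have hρ : Function.Injective ρ := ρ.injective
    constructor
    intro z
    obtain ⟨q, hq0, hq⟩ := Algebra.IsAlgebraic.isAlgebraic (R := L) z
    refine ⟨q.map ρ, (Polynomial.map_ne_zero_iff hρ).2 hq0, ?_⟩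
    rw [Polynomial.aeval_def, Polynomial.eval₂_map]
    exact hq)
  have hpts : ∀ t, (fun i => (g i).eval t) ∈ VarPts k x := by
    intro t
    obtain ⟨h1, h2⟩ := hg t
    refine ⟨h1, fun G hG hG0 => ?_⟩
    obtain ⟨d, hd⟩ := hG
    have h3 : MvPolynomial.aeval (fun i => φ (x i)) G = 0 := by
      have h4 := Pool.Agent.W602.GT.val_map φ G x
      rw [hG0, map_zero] at h4
      exact h4.symm
    exact h2 G d hd h3
  obtain ⟨c, hc⟩ := hno g hpts s t
  obtain ⟨i, hi⟩ := hst c
  exact hi (hc i)

end Pool.Agent.TH466.QT.RC
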