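import Pool.Agent.TH466.QT.Rat
import Pool.Agent.TH466.QG.Strong

/-!
Components whose circuits are constant are linear spaces.
-/

set_option autoImplicit false
set_option linter.overlappingInstances false
set_option linter.unusedSectionVars false

open FF IntermediateField Pool.Agent.W603.LV

namespace Pool.Agent.TH466.QT

open Pool.Agent.W602.GT Pool.Agent.TH466.QG

variable {k : Type} [Field k] [CharZero k] [IsAlgClosed k] {n : ℕ} {ι : Type}
  {K : Type} [Field K] [Algebra k K]

/-- A component of a variety which contains all solutions of the linear equations over `k`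
satisfied by its generic point is rational. -/
theorem rational_of_linear {F : ι → MvPolynomial (Fin (n + 1)) k} {w : ℕ}
    {y : Fin (n + 1) → K} (hy : SubVar F K w y) (hcomp : IsComponent F y)
    (hlin : ∀ x : Fin (n + 1) → k, (∀ l : Fin (n + 1) → k, lin l y = 0 → lin l x = 0) →
      ∀ e, val x (F e) = 0) :
    ∃ t : Fin w → K, AlgebraicIndependent k t ∧ IntermediateField.adjoin k (Set.range t) = ⊤ := by
  classical
  obtain ⟨i0, hi0⟩ : ∃ i, y i ≠ 0 := by
    by_contra h
    push Not at h
    exact hy.ne (funext h)
  obtain ⟨T, -, hT0, hTs, hTl⟩ := exists_linearIndepOn_extension (K := k) (v := y)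
    (s := {i0}) (t := Set.univ) (by
      rw [linearIndepOn_singleton_iff]
      exact hi0) (Set.subset_univ _)
  have hi0T : i0 ∈ T := hT0 rfl
  have hspan : ∀ i, ∃ c : T → k, ∑ j, c j • y j = y i := by
    intro i
    have h1 : y i ∈ Submodule.span k (y '' T) := hTs ⟨i, trivial, rfl⟩
    rw [Set.image_eq_range] at h1
    exact (Submodule.mem_span_range_iff_exists_fun k).1 h1
  choose c hc using hspan
  let x : (T → k) → Fin (n + 1) → k := fun τ i => ∑ j, c i j * τ j
  have hli : LinearIndependent k (fun j : T => y j) := hTl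
  have hlx : ∀ (τ : T → k) (l : Fin (n + 1) → k), lin l y = 0 → lin l (x τ) = 0 := by
    intro τ l hl
    have h1 : ∑ j : T, (∑ i, l i * c i j) • y j = 0 := by
      rw [← hl]
      unfold lin
      have h2 : ∀ i, algebraMap k K (l i) * y i = ∑ j : T, (l i * c i j) • y j := by
        intro i
        rw [← hc i, Finset.mul_sum]
        exact Finset.sum_congr rfl fun j _ => by
          rw [mul_smul, Algebra.smul_def (l i)]
      simp only [h2, Finset.sum_smul]
      exact Finset.sum_comm
    have h2 := Fintype.linearIndependent_iff.1 hli _ h1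
    unfold lin
    have h3 : ∀ i, algebraMap k k (l i) * x τ i = ∑ j : T, (l i * c i j) * τ j := by
      intro i
      change l i * ∑ j, c i j * τ j = _
      rw [Finset.mul_sum]
      exact Finset.sum_congr rfl fun j _ => by ring
    simp only [h3]
    rw [Finset.sum_comm]
    refine Finset.sum_eq_zero fun j _ => ?_
    rw [← Finset.sum_mul, h2 j, zero_mul]
  have hxT : ∀ (τ : T → k) (i : T), x τ i = τ i := by
    intro τ i
    have h1 : ∑ j : T, (c i j - if j = i then 1 else 0) • y j = 0 := by
      simp only [sub_smul, Finset.sum_sub_distrib, hc, ite_smul, one_smul, zero_smul]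
      simp
    have h2 := Fintype.linearIndependent_iff.1 hli _ h1
    change ∑ j, c i j * τ j = τ i
    have h3 : ∀ j, c i j * τ j = if j = i then τ j else 0 := by
      intro j
      have h4 := h2 j
      rw [sub_eq_zero] at h4
      rw [h4]
      split_ifs <;> simp
    simp only [h3]
    simp
  let T' : Type := {j : T // (j : Fin (n + 1)) ≠ i0}
  let t : T' → K := fun j => y j.1 / y i0
  let τ : (T' → k) → T → k := fun v j => if h : (j : Fin (n + 1)) = i0 then 1 else v ⟨j, h⟩
  obtain ⟨H, ⟨D, hHD⟩, hHy, hHx⟩ := hcomp
  let f : Fin (n + 1) → MvPolynomial T' k := fun i =>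
    ∑ j : T, MvPolynomial.C (c i j) * (if h : (j : Fin (n + 1)) = i0 then 1 else
      MvPolynomial.X ⟨j, h⟩)
  let q : MvPolynomial T' k := MvPolynomial.aeval f H
  have hqv : ∀ v : T' → k, MvPolynomial.eval v q = val (x (τ v)) H := by
    intro v
    change MvPolynomial.eval v (MvPolynomial.aeval f H) = MvPolynomial.aeval (x (τ v)) H
    rw [← MvPolynomial.coe_aeval_eq_eval]
    change (MvPolynomial.aeval v) (MvPolynomial.aeval f H) = _
    rw [← AlgHom.comp_apply, MvPolynomial.comp_aeval]
    congr 2
    funext i
    rw [map_sum]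
    refine Finset.sum_congr rfl fun j _ => ?_
    rw [map_mul, MvPolynomial.aeval_C]
    by_cases h : (j : Fin (n + 1)) = i0
    · simp [τ, h]
    · simp [τ, h]
  have hzf : ∀ i, MvPolynomial.aeval t (f i) = y i / y i0 := by
    intro i
    rw [map_sum, ← hc i, Finset.sum_div]
    refine Finset.sum_congr rfl fun j _ => ?_
    rw [map_mul, MvPolynomial.aeval_C, Algebra.smul_def, mul_div_assoc]
    congr 1
    by_cases h : (j : Fin (n + 1)) = i0
    · simp [h, hi0]
    · simp [h, t]
  have hq0 : q ≠ 0 := by
    intro h0
    have h1 : MvPolynomial.aeval t q = 0 := by rw [h0, map_zero]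
    change (MvPolynomial.aeval t) (MvPolynomial.aeval f H) = 0 at h1
    rw [← AlgHom.comp_apply, MvPolynomial.comp_aeval] at h1
    simp only [hzf] at h1
    apply hHy
    have h2 := val_smul hHD (y i0) (fun i => y i / y i0)
    have h3 : (fun i => y i0 * (y i / y i0)) = y := by
      funext i
      field_simp
    rw [h3] at h2
    rw [h2]
    change _ * MvPolynomial.aeval (fun i => y i / y i0) H = 0
    rw [h1, mul_zero]
  have hind : AlgebraicIndependent k t := by
    rw [algebraicIndependent_iff]
    intro p hp
    let p' : MvPolynomial (Fin (n + 1)) k := MvPolynomial.rename (fun j : T' => (j.1 : Fin (n + 1))) p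
    have hren : ∀ {E : Type} [Field E] [Algebra k E] (u : Fin (n + 1) → E),
        MvPolynomial.aeval u p' = MvPolynomial.aeval (fun j : T' => u j.1) p := by
      intro E _ _ u
      rw [MvPolynomial.aeval_rename]
      rfl
    have hP : Pool.Agent.W602.GT.val y (Pool.Agent.TH466.QG.hz i0 p') = 0 := by
      rw [val_hz p' hi0, hren]
      change _ * MvPolynomial.aeval t p = 0
      rw [hp, mul_zero]
    have hpq : p * q = 0 := by
      apply MvPolynomial.funext
      intro v
      rw [map_mul, map_zero]
      by_cases hH : Pool.Agent.W602.GT.val (x (τ v)) H = 0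
      · rw [hqv, hH, mul_zero]
      have hx0 : x (τ v) i0 = 1 := by
        have h1 := hxT (τ v) ⟨i0, hi0T⟩
        change x (τ v) i0 = τ v ⟨i0, hi0T⟩ at h1
        rw [h1]
        simp [τ]
      have h1 := (hHx (x (τ v)) ⟨fun h => by
        have h2 := congrFun h i0
        rw [hx0] at h2
        exact one_ne_zero h2, fun e => hlin _ (hlx (τ v)) e⟩ hH).2 _ (hz_form i0 p') hP
      rw [val_hz p' (by rw [hx0]; exact one_ne_zero), hx0, one_pow, one_mul, hren] at h1
      have h2 : (fun j : T' => x (τ v) j.1 / 1) = v := by
        funext j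
        rw [div_one, hxT (τ v) j.1]
        simp only [τ, dif_neg j.2]
        rfl
      rw [h2] at h1
      have h3 : MvPolynomial.eval v p = 0 := by
        rw [← MvPolynomial.coe_aeval_eq_eval]
        exact h1
      rw [h3, zero_mul]
    exact (mul_eq_zero.1 hpq).resolve_right hq0
  have htop : IntermediateField.adjoin k (Set.range t) = ⊤ := by
    rw [eq_top_iff, ← hy.gen]
    unfold coords
    rw [IntermediateField.adjoin_le_iff]
    have h1 : ∀ i, y i / y i0 ∈ IntermediateField.adjoin k (Set.range t) := by
      intro i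
      rw [← hzf i]
      have h2 : MvPolynomial.aeval t (f i) ∈ Algebra.adjoin k (Set.range t) := by
        rw [Algebra.adjoin_range_eq_range_aeval]
        exact ⟨_, rfl⟩
      exact IntermediateField.algebra_adjoin_le_adjoin _ _ h2
    rintro _ ⟨i, j, hj, rfl⟩
    have h2 : y i / y j = (y i / y i0) / (y j / y i0) := by
      field_simp
    rw [h2]
    exact div_mem (h1 i) (h1 j)
  have hbas : IsTranscendenceBasis k t := by
    refine hind.isTranscendenceBasis_iff_isAlgebraic.2 ?_
    apply alg_adjoin
    rw [htop]
    exact ⟨fun z => isAlgebraic_algebraMap (⟨z, trivial⟩ : (⊤ : IntermediateField k K))⟩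
  have hcard := hbas.cardinalMk_eq_trdeg
  rw [hy.dim] at hcard
  obtain ⟨φ⟩ : Nonempty (Fin w ≃ T') := by
    rw [← Cardinal.eq, Cardinal.mk_fin]
    exact hcard.symm
  refine ⟨t ∘ φ, hind.comp φ φ.injective, ?_⟩
  rw [φ.surjective.range_comp]
  exact htop

end Pool.Agent.TH466.QT
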