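import Pool.Agent.TH466.QG.Top
import Pool.Agent.W619.Y.Parts
import Pool.Agent.W619.Y.Eqv
import Pool.Agent.W619.TW.Tens
import Pool.Agent.W619.PQ.Log

/-!
Tensor differentials which come from pluricanonical forms of a subfield.
-/

set_option autoImplicit false
set_option linter.overlappingInstances false
set_option linter.unusedSectionVars false

open FF IntermediateField

namespace Pool.Agent.TH466.QT

open Pool.Agent.W602.GT Pool.Agent.TH466.QG
open Pool.Agent.W619.TW (TensorVanish)
open Pool.Agent.W619.PQ
open Pool.Agent.W619.Y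
open Pool.Agent.W603.LV (Ge)

variable {k L : Type} [Field k] [CharZero k] [Field L] [Algebra k L]

theorem tmap_update (d m : ℕ) (y : Fin d → L) [DecidableEq (Fin m × Fin d)]
    (D : Fin m × Fin d → Derivation k L L) (p : Fin m × Fin d) (X : Derivation k L L) :
    ∏ l : Fin m, (Matrix.of fun j i => (Function.update D p X (l, j)) (y i)).det =
      (Matrix.updateRow (Matrix.of fun j i => D (p.1, j) (y i)) p.2 fun i => X (y i)).det *
        ∏ l ∈ Finset.univ.erase p.1, (Matrix.of fun j i => D (l, j) (y i)).det := by
  rw [← Finset.mul_prod_erase Finset.univ _ (Finset.mem_univ p.1)]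
  congr 1
  · congr 1
    ext j i
    rw [Matrix.updateRow_apply, Matrix.of_apply, Matrix.of_apply]
    by_cases hj : j = p.2
    · subst hj
      rw [if_pos rfl, Prod.mk.eta, Function.update_self]
    · rw [if_neg hj, Function.update_of_ne]
      intro h
      exact hj (congrArg Prod.snd h)
  · refine Finset.prod_congr rfl fun l hl => ?_
    congr 1
    ext j i
    rw [Matrix.of_apply, Matrix.of_apply, Function.update_of_ne]
    intro h
    exact Finset.ne_of_mem_erase hl (congrArg Prod.fst h)

/-- `a (dy 0 ∧ … ∧ dy (d - 1)) ^ m` as a multilinear function -/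
noncomputable def tmap (d m : ℕ) (a : L) (y : Fin d → L) :
    MultilinearMap L (fun _ : Fin m × Fin d => Derivation k L L) L where
  toFun D := a * ∏ l : Fin m, (Matrix.of fun j i => D (l, j) (y i)).det
  map_update_add' := by
    intro _ D p X Y
    simp only [tmap_update]
    rw [← mul_add, ← add_mul]
    congr 2
    have h := Matrix.det_updateRow_add (Matrix.of fun j i => D (p.1, j) (y i)) p.2
      (fun i => X (y i)) (fun i => Y (y i))
    rw [← h]
    rfl
  map_update_smul' := by
    intro _ D p f X
    simp only [tmap_update]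
    have h := Matrix.det_updateRow_smul (Matrix.of fun j i => D (p.1, j) (y i)) p.2 f
      (fun i => X (y i))
    have h2 : (fun i => (f • X) (y i)) = f • fun i => X (y i) := rfl
    rw [h2, h, smul_eq_mul]
    ring

/-- dual derivations for algebraically independent elements -/
theorem exists_dual_of_indep {d : ℕ} {y : Fin d → L} (hy : AlgebraicIndependent k y) :
    ∃ D : Fin d → Derivation k L L, ∀ j i, D j (y i) = if i = j then 1 else 0 := by
  classical
  obtain ⟨T, hT, hb⟩ := exists_isTranscendenceBasis_superset (s := Set.range y)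
    hy.coe_range
  have h1 : ∀ j : Fin d, ∃ D : Derivation k L L, ∀ i : T, D (i : L) = if (i : L) = y j then 1 else 0 := by
    intro j
    obtain ⟨D, hD⟩ := exists_dual (k := k) (fun i : T => (i : L)) hb ⟨y j, hT ⟨j, rfl⟩⟩
    refine ⟨D, fun i => ?_⟩
    rw [hD i]
    simp only [Subtype.ext_iff]
  choose D hD using h1
  refine ⟨D, fun j i => ?_⟩
  rw [hD j ⟨y i, hT ⟨i, rfl⟩⟩]
  simp only [hy.injective.eq_iff]

/-- A pluricanonical form of a subfield of positive transcendence degree gives a nonzero tensor
differential. -/
theorem not_vanish {n d m : ℕ} (hn : Algebra.trdeg k L = n) (M : IntermediateField k L)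
    [Algebra.EssFiniteType k M] (hM : Algebra.trdeg k M = d) (hd : 1 ≤ d) (hm : 1 ≤ m)
    (η : (Fin d → Derivation k M M) → M) (hη : IsPluriForm k M d m η)
    (hreg : ∀ u : Place k M, IsDivisorial u d → RegularAt u d η) (D0 : Fin d → Derivation k M M)
    (h0 : η D0 ≠ 0) : ¬ TensorVanish k L n := by
  classical
  intro hT
  obtain ⟨B, hB⟩ := exists_isTranscendenceBasis k M
  have hcard := hB.cardinalMk_eq_trdeg
  rw [hM] at hcard
  obtain ⟨φ⟩ : Nonempty (Fin d ≃ B) := by
    rw [← Cardinal.eq, Cardinal.mk_fin]
    exact hcard.symm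
  let y : Fin d → M := fun i => (φ i : M)
  have hy : IsTranscendenceBasis k y := hB.comp_equiv φ
  choose E hE using fun j => exists_dual (k := k) y hy j
  have hE' : ∀ i j, E i (y j) = if i = j then 1 else 0 := by
    intro i j
    rw [hE i j]
    by_cases h : i = j
    · subst h; simp
    · rw [if_neg h, if_neg (Ne.symm h)]
  have ha : η E ≠ 0 := by
    intro h
    apply h0
    rw [pluri_frame hη y hy E hE' D0, h, mul_zero]
  have haL : ((η E : M) : L) ≠ 0 := by
    intro h
    exact ha (Subtype.ext h)
  have hyL : AlgebraicIndependent k (fun i => (y i : L)) :=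
    hy.1.map' (f := M.val) M.val.toRingHom.injective
  obtain ⟨D, hD⟩ := exists_dual_of_indep hyL
  have h1 := hT (m * d) (Nat.mul_pos hm hd)
    ((tmap (k := k) d m ((η E : M) : L) (fun i => (y i : L))).domDomCongr finProdFinEquiv) ?_
  · have h2 := congrArg (fun ω => ω fun q => D (finProdFinEquiv.symm q).2) h1
    simp only [MultilinearMap.domDomCongr_apply, Equiv.symm_apply_apply,
      _root_.zero_apply] at h2
    change ((η E : M) : L) * ∏ l : Fin m, (Matrix.of fun j i => D j (y i : L)).det = 0 at h2
    have h3 : (Matrix.of fun j i => D j (y i : L)) = (1 : Matrix (Fin d) (Fin d) L) := by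
      ext j i
      rw [Matrix.of_apply, hD j i, Matrix.one_apply]
      by_cases h : i = j
      · subst h; simp
      · rw [if_neg h, if_neg (Ne.symm h)]
    rw [h3, Matrix.det_one, Finset.prod_const_one, mul_one] at h2
    exact haL h2
  · intro w hw X hX
    obtain ⟨Z, z, hz, hZ, hge⟩ := pYLOC k L M d n m hM hn (fun y hy => fin_over y hy) η hη hreg y E
      hy hE' w hw
    rw [MultilinearMap.domDomCongr_apply]
    change w.Reg (((η E : M) : L) *
      ∏ l : Fin m, (Matrix.of fun j i => X (finProdFinEquiv (l, j)) (y i : L)).det)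
    have h2 : ∀ l : Fin m, (Matrix.of fun j i => X (finProdFinEquiv (l, j)) (y i : L)).det =
        Z.det * (Matrix.of fun j c => X (finProdFinEquiv (l, j)) (z c)).det := by
      intro l
      have h3 : (Matrix.of fun j i => X (finProdFinEquiv (l, j)) (y i : L)) =
          (Matrix.of fun j c => X (finProdFinEquiv (l, j)) (z c)) * Z.transpose := by
        ext j i
        rw [Matrix.mul_apply, Matrix.of_apply, hZ]
        exact Finset.sum_congr rfl fun c _ => by
          rw [Matrix.of_apply, Matrix.transpose_apply, mul_comm]
      rw [h3, Matrix.det_mul, Matrix.det_transpose, mul_comm]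
    simp only [h2]
    rw [Finset.prod_mul_distrib, Finset.prod_const, Finset.card_univ, Fintype.card_fin, ← mul_assoc]
    have h3 : Ge w 0 (∏ l : Fin m, (Matrix.of fun j c => X (finProdFinEquiv (l, j)) (z c)).det) := by
      have h4 := Pool.Agent.W619.TW.ge_prod (v := w) (a := 0)
        (f := fun l : Fin m => (Matrix.of fun j c => X (finProdFinEquiv (l, j)) (z c)).det)
        (fun l => ge_det w _ fun j c => hX (finProdFinEquiv (l, j)) (z c) (hz c))
      simpa using h4
    have h5 := hge.mul h3
    rw [add_zero] at h5
    exact h5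

end Pool.Agent.TH466.QT
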