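import Pool.Agent.TH466.QT.Lin

/-!
Sums of powers of linear forms with constant circuits.
-/

set_option autoImplicit false
set_option linter.overlappingInstances false
set_option linter.unusedSectionVars false

open FF IntermediateField Pool.Agent.W603.LV

namespace Pool.Agent.TH466.QT

open Pool.Agent.W602.GT Pool.Agent.TH466.QG

variable {k : Type} [Field k] [CharZero k] [IsAlgClosed k] {n : ℕ} {ι : Type}
  {K : Type} [Field K] [Algebra k K]

theorem const_of_alg {z : K} (hz : IsAlgebraic k z) : ∃ c : k, algebraMap k K c = z := by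
  have h1 : Algebra.IsAlgebraic k k⟮z⟯ :=
    IntermediateField.isAlgebraic_adjoin_simple hz.isIntegral
  obtain ⟨c, hc⟩ := (IsAlgClosed.algebraMap_bijective_of_isIntegral (k := k) (K := k⟮z⟯)).2
    ⟨z, IntermediateField.mem_adjoin_simple_self k z⟩
  exact ⟨c, congrArg (fun x : k⟮z⟯ => (x : K)) hc⟩

theorem const_of_pow {z : K} {d : ℕ} (hd : 0 < d) {c : k} (h : z ^ d = algebraMap k K c) :
    ∃ c : k, algebraMap k K c = z :=
  const_of_alg (IsAlgebraic.of_pow hd (h ▸ isAlgebraic_algebraMap c))

theorem waring_const {F : ι → MvPolynomial (Fin (n + 1)) k} {s N : ℕ}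
    (hF : ∀ e, IsPowSum s N (F e)) (hN1 : 1 ≤ N) {y : Fin (n + 1) → K}
    (hyF : ∀ e, Pool.Agent.W602.GT.val y (F e) = 0)
    (hcr : ∀ x ∈ cr k K s N, ∃ c : k, algebraMap k K c = x) (x : Fin (n + 1) → k)
    (hx : ∀ l : Fin (n + 1) → k, lin l y = 0 → lin l x = 0) (e : ι) :
    Pool.Agent.W602.GT.val x (F e) = 0 := by
  classical
  obtain ⟨r, d, l, hr, hd, hFe⟩ := hF e
  have hd0 : 0 < d := lt_of_lt_of_le hN1 hd
  have hvalM : ∀ (M : Type) [Field M] [Algebra k M] (x : Fin (n + 1) → M),
      Pool.Agent.W602.GT.val x (F e) = ∑ j, lin (l j) x ^ d := by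
    intro M _ _ x
    unfold Pool.Agent.W602.GT.val
    rw [hFe, map_sum]
    refine Finset.sum_congr rfl fun j _ => ?_
    rw [map_pow, map_sum]
    simp only [map_mul, MvPolynomial.aeval_C, MvPolynomial.aeval_X]
    rfl
  let J : Type := {j : Fin r // lin (l j) y ≠ 0}
  let g : J → K := fun j => lin (l j.1) y ^ d
  have hsub : ∀ (M : Type) [Field M] (f : Fin r → M), (∀ j, lin (l j) y = 0 → f j = 0) →
      ∑ j, f j = ∑ j : J, f j.1 := by
    intro M _ f hf
    rw [← Finset.sum_subtype (Finset.univ.filter fun j => lin (l j) y ≠ 0) (by simp) f]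
    rw [Finset.sum_filter_of_ne]
    intro j _ hj h0
    exact hj (hf j h0)
  have hsum : ∑ j, g j = 0 := by
    rw [← hsub K (fun j => lin (l j) y ^ d) (fun j hj => by rw [hj, zero_pow hd0.ne']), ← hvalM]
    exact hyF e
  have hcard : Fintype.card J ≤ s :=
    (Fintype.card_subtype_le _).trans (by rw [Fintype.card_fin]; exact hr)
  let R : J → J → Prop := fun i j => ∃ ρ : k, lin (l i.1) y = algebraMap k K ρ * lin (l j.1) y
  have hR : Equivalence R := by
    refine ⟨fun i => ⟨1, by rw [map_one, one_mul]⟩, ?_, ?_⟩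
    · rintro i j ⟨ρ, hρ⟩
      have h0 : algebraMap k K ρ ≠ 0 := by
        intro h0
        rw [h0, zero_mul] at hρ
        exact i.2 hρ
      exact ⟨ρ⁻¹, by rw [hρ, map_inv₀, inv_mul_cancel_left₀ h0]⟩
    · rintro i j m ⟨ρ, hρ⟩ ⟨σ, hσ⟩
      exact ⟨ρ * σ, by rw [hρ, hσ, map_mul, mul_assoc]⟩
  have hcl : ∀ (j0 : J) (A : Finset J), (∀ j, j ∈ A ↔ R j0 j) → ∑ j ∈ A, g j = 0 := by
    intro j0 A hA
    have key := class_sum (k := k) g R hR
      (by
        intro m em hem c hc hrel hlin i j
        have hcirc : IsCirc k s N m d (fun j => lin (l (em j).1) y) c := by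
          refine ⟨?_, hd, fun j => (em j).2, hc, hrel, hlin⟩
          have := Fintype.card_le_of_injective _ hem
          simp only [Fintype.card_fin] at this
          exact this.trans hcard
        obtain ⟨c0, hc0⟩ := hcr _ ⟨m, d, _, c, i, j, hcirc, rfl⟩
        have h1 : (lin (l (em i).1) y / lin (l (em j).1) y) ^ d =
            algebraMap k K (c0 * c j / c i) := by
          have hi := (em i).2
          have hj := (em j).2
          have hci : algebraMap k K (c i) ≠ 0 := by rw [Ne, map_eq_zero]; exact hc i
          have hcj : algebraMap k K (c j) ≠ 0 := by rw [Ne, map_eq_zero]; exact hc j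
          rw [map_div₀, map_mul, hc0, Algebra.smul_def, Algebra.smul_def, div_pow]
          field_simp
        obtain ⟨ρ, hρ⟩ := const_of_pow hd0 h1
        refine ⟨ρ, ?_⟩
        rw [hρ]
        have hj := (em j).2
        field_simp)
      (Finset.univ.filter fun j => (fun _ : J => (1 : k)) j ≠ 0).card (fun _ => 1) le_rfl
      (by simpa using hsum) j0
    simp only [one_smul] at key
    rw [← key]
    exact Finset.sum_congr (by ext j; simp [hA]) (fun _ _ => rfl)
  apply (algebraMap k K).injective
  rw [map_zero, hvalM k x, map_sum]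
  simp only [map_pow]
  rw [hsub K (fun j => (algebraMap k K (lin (l j) x)) ^ d) (fun j hj => by
    rw [hx _ hj, map_zero, zero_pow hd0.ne'])]
  have h1 := weighted_sum R hR g
    (fun j => (algebraMap k K (lin (l j.1) x) / lin (l j.1) y) ^ d)
    (fun i j hij => by
      obtain ⟨ρ, hρ⟩ := hij
      have h2 : lin (l i.1) x = ρ * lin (l j.1) x := by
        have h3 := hx (fun m => l i.1 m - ρ * l j.1 m) ?_
        · have h4 : lin (fun m => l i.1 m - ρ * l j.1 m) x =
              lin (l i.1) x - ρ * lin (l j.1) x := by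
            unfold lin
            rw [Finset.mul_sum, ← Finset.sum_sub_distrib]
            exact Finset.sum_congr rfl fun m _ => by
              simp only [Algebra.algebraMap_self, RingHom.id_apply]
              ring
          rw [h4] at h3
          exact sub_eq_zero.1 h3
        · have h4 : lin (fun m => l i.1 m - ρ * l j.1 m) y =
              lin (l i.1) y - algebraMap k K ρ * lin (l j.1) y := by
            unfold lin
            rw [Finset.mul_sum, ← Finset.sum_sub_distrib]
            exact Finset.sum_congr rfl fun m _ => by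
              rw [map_sub, map_mul]
              ring
          rw [h4, hρ, sub_self]
      have hi := i.2
      have hj := j.2
      have hρ0 : algebraMap k K ρ ≠ 0 := by
        intro h0
        rw [h0, zero_mul] at hρ
        exact hi hρ
      congr 1
      rw [h2, hρ, map_mul, mul_div_mul_left _ _ hρ0])
    hcl
  refine Eq.trans (Finset.sum_congr rfl fun j _ => ?_) h1
  have := j.2
  change _ = _ * lin (l j.1) y ^ d
  rw [← mul_pow]
  congr 1
  field_simp

end Pool.Agent.TH466.QT
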