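import Pool.Agent.TH466.QT.Grp
import Pool.Agent.TH466.QT.Tens
import Pool.Agent.TH466.QT.War

/-!
Tensor differentials on quotients.
-/

set_option autoImplicit false
set_option linter.overlappingInstances false
set_option linter.unusedSectionVars false

open FF IntermediateField Pool.Agent.W603.LV

namespace Pool.Agent.TH466.QT

open Pool.Agent.W602.GT Pool.Agent.TH466.QG
open Pool.Agent.W619.TW (TensorVanish IsUnirational)

variable {k : Type} [Field k] [CharZero k] [IsAlgClosed k]

theorem tensor_main {K : Type} [Field K] [Algebra k K] {s N w r : ℕ} (hN1 : 1 ≤ N)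
    (hw : Algebra.trdeg k K = w) (hne : ∃ x ∈ cr k K s N, ∀ c : k, algebraMap k K c ≠ x)
    (hN : r * (w * ((s + 4) * ((s - 1) * (s - 2) / 2))) ≤ N)
    {K' L : Type} [Field K'] [Field L] [Algebra k K'] [Algebra k L] [Algebra K K'] [Algebra L K']
    [IsScalarTower k K K'] [IsScalarTower k L K'] [Algebra.IsAlgebraic K K']
    [FiniteDimensional L K'] [IsGalois L K'] (hr : Module.finrank L K' ≤ r) :
    (∃ b : ℕ, 1 ≤ b ∧ b ≤ w ∧ ∃ M : IntermediateField k L, GeneralType k M b) ∧
      ¬ TensorVanish k L w := by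
  have hK' : Algebra.trdeg k K' = w := by
    rw [← hw]
    exact trdeg_alg
  have hL : Algebra.trdeg k L = w := by
    rw [← hK']
    exact trdeg_alg.symm
  obtain ⟨x, hx, hxc⟩ := hne
  have hle := trdeg_le_of_injective (E0 k K' s N).val (E0 k K' s N).val.toRingHom.injective
  rw [hK'] at hle
  obtain ⟨b, hb⟩ := Cardinal.lt_aleph0.1 (hle.trans_lt Cardinal.natCast_lt_aleph0)
  have hb1 : 1 ≤ b := by
    rw [Nat.one_le_iff_ne_zero]
    rintro rfl
    rw [Nat.cast_zero, trdeg_eq_zero_iff] at hb
    let φ : K →ₐ[k] K' := IsScalarTower.toAlgHom k K K'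
    have h1 : φ x ∈ E0 k K' s N :=
      adjoin_le_E0 (IntermediateField.subset_adjoin k _ (cr_map φ hx))
    have h2 : IsAlgebraic k (⟨φ x, h1⟩ : E0 k K' s N) := hb.isAlgebraic _
    obtain ⟨c, hc⟩ := const_of_alg h2
    apply hxc c
    apply (algebraMap K K').injective
    rw [← IsScalarTower.algebraMap_apply]
    exact congrArg (fun z : E0 k K' s N => (z : K')) hc
  obtain ⟨hbw, M, hess, hM⟩ := exists_general (K := K') (L := L) hN1 hK' hb hb1 hr hN
  refine ⟨⟨b, hb1, hbw, M, hM⟩, ?_⟩
  obtain ⟨htr, m, hm, ω, hω, hreg, D, hD0, -⟩ := hM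
  exact not_vanish hL M htr hb1 hm (ω 0) (hω 0) (fun u hu => hreg u hu 0) D hD0

theorem unirational_of_sub {K L : Type} [Field K] [Algebra k K] [Field L] [Algebra k L]
    [Algebra L K] [IsScalarTower k L K] {w : ℕ} {t : Fin w → K} (ht : AlgebraicIndependent k t)
    (htop : IntermediateField.adjoin k (Set.range t) = ⊤) : IsUnirational k L w := by
  let e1 := ht.aevalEquivField
  let e2 : (IntermediateField.adjoin k (Set.range t)) ≃ₐ[k] K :=
    (IntermediateField.equivOfEq htop).trans IntermediateField.topEquiv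
  exact ⟨((e1.trans e2).symm : K →ₐ[k] _).comp (IsScalarTower.toAlgHom k L K)⟩

end Pool.Agent.TH466.QT
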