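import Pool.Agent.TH466.QG.Top
import Pool.Agent.TH466.QG.Equiv
import Mathlib.FieldTheory.AlgebraicClosure

/-!
The field generated by the ratios of the members of all circuits of high powers.
-/

set_option autoImplicit false
set_option linter.overlappingInstances false
set_option linter.unusedSectionVars false

open FF IntermediateField

namespace Pool.Agent.TH466.QT

open Pool.Agent.W602.GT Pool.Agent.TH466.QG

variable {k : Type} [Field k]

/-- a circuit of high powers -/
structure IsCirc (k : Type) [Field k] {K : Type} [Field K] [Algebra k K] (s N m d : ℕ)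
    (U : Fin (m + 1) → K) (c : Fin (m + 1) → k) : Prop where
  ms : m + 1 ≤ s
  Nd : N ≤ d
  hU : ∀ j, U j ≠ 0
  hc : ∀ j, c j ≠ 0
  sum : ∑ j, c j • U j ^ d = 0
  lin : LinearIndependent k (fun l => c ((Fin.last m).succAbove l) •
    U ((Fin.last m).succAbove l) ^ d)

/-- the ratios of the members of the circuits -/
def cr (k : Type) [Field k] (K : Type) [Field K] [Algebra k K] (s N : ℕ) : Set K :=
  {x | ∃ (m d : ℕ) (U : Fin (m + 1) → K) (c : Fin (m + 1) → k) (a b : Fin (m + 1)),
    IsCirc k s N m d U c ∧ x = (c a • U a ^ d) / (c b • U b ^ d)}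

variable {K K' : Type} [Field K] [Algebra k K] [Field K'] [Algebra k K'] {s N m d : ℕ}
  {U : Fin (m + 1) → K} {c : Fin (m + 1) → k}

theorem IsCirc.map (φ : K →ₐ[k] K') (h : IsCirc k s N m d U c) :
    IsCirc k s N m d (fun j => φ (U j)) c := by
  have hT : ∀ j, c j • (φ (U j)) ^ d = φ (c j • U j ^ d) := fun j => by
    rw [map_smul, map_pow]
  refine ⟨h.ms, h.Nd, fun j => by rw [Ne, map_eq_zero]; exact h.hU j, h.hc, ?_, ?_⟩
  · simp only [hT]
    rw [← map_sum, h.sum, map_zero]
  · have h1 := h.lin.map' φ.toLinearMap (LinearMap.ker_eq_bot.2 φ.toRingHom.injective)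
    have h2 : (fun l => c ((Fin.last m).succAbove l) •
        (φ (U ((Fin.last m).succAbove l))) ^ d) =
        φ.toLinearMap ∘ fun l => c ((Fin.last m).succAbove l) •
          U ((Fin.last m).succAbove l) ^ d := funext fun l => hT _
    rw [h2]
    exact h1

theorem IsCirc.scale (h : IsCirc k s N m d U c) {z : K} (hz : z ≠ 0) :
    IsCirc k s N m d (fun j => U j * z) c := by
  have hT : ∀ j, c j • (U j * z) ^ d = (c j • U j ^ d) * z ^ d := fun j => by
    rw [mul_pow, smul_mul_assoc]
  refine ⟨h.ms, h.Nd, fun j => mul_ne_zero (h.hU j) hz, h.hc, ?_, ?_⟩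
  · simp only [hT]
    rw [← Finset.sum_mul, h.sum, zero_mul]
  · have h1 := h.lin.map' (LinearMap.mulRight k (z ^ d)) (LinearMap.ker_eq_bot.2 fun x y hxy => by
      simpa [hz] using hxy)
    have h2 : (fun l => c ((Fin.last m).succAbove l) •
        (U ((Fin.last m).succAbove l) * z) ^ d) =
        (LinearMap.mulRight k (z ^ d)) ∘ fun l => c ((Fin.last m).succAbove l) •
          U ((Fin.last m).succAbove l) ^ d := funext fun l => hT _
    rw [h2]
    exact h1

theorem IsCirc.comap (φ : K →ₐ[k] K') (h : IsCirc k s N m d (fun j => φ (U j)) c) :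
    IsCirc k s N m d U c := by
  have hT : ∀ j, φ (c j • U j ^ d) = c j • (φ (U j)) ^ d := fun j => by
    rw [map_smul, map_pow]
  refine ⟨h.ms, h.Nd, fun j h0 => h.hU j (by rw [h0, map_zero]), h.hc, ?_, ?_⟩
  · apply φ.toRingHom.injective
    change φ _ = φ 0
    rw [map_sum, map_zero, ← h.sum]
    exact Finset.sum_congr rfl fun j _ => hT j
  · refine LinearIndependent.of_comp φ.toLinearMap ?_
    have h2 : (φ.toLinearMap ∘ fun l => c ((Fin.last m).succAbove l) •
          U ((Fin.last m).succAbove l) ^ d) = (fun l => c ((Fin.last m).succAbove l) •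
        (φ (U ((Fin.last m).succAbove l))) ^ d) := funext fun l => hT _
    rw [h2]
    exact h.lin

theorem cr_map (φ : K →ₐ[k] K') {x : K} (hx : x ∈ cr k K s N) : φ x ∈ cr k K' s N := by
  obtain ⟨m, d, U, c, a, b, h, rfl⟩ := hx
  exact ⟨m, d, fun j => φ (U j), c, a, b, h.map φ, by rw [map_div₀, map_smul, map_smul, map_pow,
    map_pow]⟩

/-- the algebraic closure in `K` of the field generated by the ratios of the circuits -/
def E0 (k : Type) [Field k] (K : Type) [Field K] [Algebra k K] (s N : ℕ) :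
    IntermediateField k K :=
  (algebraicClosure (IntermediateField.adjoin k (cr k K s N)) K).restrictScalars k

theorem mem_E0 {x : K} : x ∈ E0 k K s N ↔ IsAlgebraic (IntermediateField.adjoin k (cr k K s N)) x :=
  mem_algebraicClosure_iff

theorem adjoin_le_E0 : IntermediateField.adjoin k (cr k K s N) ≤ E0 k K s N := by
  intro x hx
  rw [mem_E0]
  exact isAlgebraic_algebraMap (⟨x, hx⟩ : IntermediateField.adjoin k (cr k K s N))

theorem ratio_mem (hN : 1 ≤ N) (h : IsCirc k s N m d U c) (a b : Fin (m + 1)) :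
    U a * (U b)⁻¹ ∈ E0 k K s N := by
  rw [mem_E0]
  have hd : 0 < d := lt_of_lt_of_le hN h.Nd
  apply IsAlgebraic.of_pow hd
  have h1 : (c a • U a ^ d) / (c b • U b ^ d) ∈ IntermediateField.adjoin k (cr k K s N) :=
    IntermediateField.subset_adjoin k _ ⟨m, d, U, c, a, b, h, rfl⟩
  have h2 : (U a * (U b)⁻¹) ^ d = algebraMap k K (c b / c a) *
      ((c a • U a ^ d) / (c b • U b ^ d)) := by
    have ha : algebraMap k K (c a) ≠ 0 := by rw [Ne, map_eq_zero]; exact h.hc a
    have hb : algebraMap k K (c b) ≠ 0 := by rw [Ne, map_eq_zero]; exact h.hc b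
    have := h.hU b
    rw [Algebra.smul_def, Algebra.smul_def, map_div₀, mul_pow, inv_pow]
    field_simp
  have h3 : (U a * (U b)⁻¹) ^ d ∈ IntermediateField.adjoin k (cr k K s N) := by
    rw [h2]
    exact mul_mem (IntermediateField.algebraMap_mem _ _) h1
  exact isAlgebraic_algebraMap (⟨_, h3⟩ : IntermediateField.adjoin k (cr k K s N))

/-- automorphisms preserve `E0` -/
theorem E0_map (φ : K →ₐ[k] K) {x : K} (hx : x ∈ E0 k K s N) : φ x ∈ E0 k K s N := by
  rw [mem_E0] at hx ⊢
  obtain ⟨p, hp, hpx⟩ := hx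
  have hmem : ∀ a : IntermediateField.adjoin k (cr k K s N),
      φ a ∈ IntermediateField.adjoin k (cr k K s N) := by
    intro a
    have h1 : φ a ∈ (IntermediateField.adjoin k (cr k K s N)).map φ := ⟨a, a.2, rfl⟩
    rw [IntermediateField.adjoin_map] at h1
    refine IntermediateField.adjoin.mono k _ _ ?_ h1
    rintro _ ⟨x, hx, rfl⟩
    exact cr_map φ hx
  let ψ : IntermediateField.adjoin k (cr k K s N) →+* IntermediateField.adjoin k (cr k K s N) :=
    (φ.toRingHom.comp (algebraMap _ K)).codRestrict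
      (IntermediateField.adjoin k (cr k K s N)).toSubring hmem
  refine ⟨p.map ψ, ?_, ?_⟩
  · rwa [Ne, Polynomial.map_eq_zero]
  · rw [Polynomial.aeval_def, Polynomial.eval₂_map]
    have h1 : (algebraMap (IntermediateField.adjoin k (cr k K s N)) K).comp ψ =
        φ.toRingHom.comp (algebraMap _ K) := RingHom.ext fun a => rfl
    rw [h1]
    have h2 := congrArg φ.toRingHom hpx
    rw [Polynomial.aeval_def, Polynomial.hom_eval₂, map_zero] at h2
    exact h2

/-- the system of circuits of `E0` -/
theorem hasCirc_E0 (hN : 1 ≤ N) {b : ℕ} (hb : Algebra.trdeg k (E0 k K s N) = b) :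
    HasCirc k s N b (E0 k K s N) := by
  classical
  let A : IntermediateField k K := IntermediateField.adjoin k (cr k K s N)
  let _ : Algebra A (E0 k K s N) := (IntermediateField.inclusion (adjoin_le_E0 (k := k) (K := K)
    (s := s) (N := N))).toRingHom.toAlgebra
  have t1 : IsScalarTower A (E0 k K s N) K := IsScalarTower.of_algebraMap_eq fun _ => rfl
  have t2 : IsScalarTower k A (E0 k K s N) := IsScalarTower.of_algebraMap_eq fun _ => rfl
  have halg : Algebra.IsAlgebraic A (E0 k K s N) := ⟨fun z => by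
    have h1 : IsAlgebraic A (z : K) := mem_E0.1 z.2
    exact (isAlgebraic_algebraMap_iff (R := A) (A := K) (algebraMap (E0 k K s N) K).injective).1 h1⟩
  let S : Set A := {x | (x : K) ∈ cr k K s N}
  have htop : IntermediateField.adjoin k S = ⊤ := by
    apply IntermediateField.map_injective A.val
    rw [IntermediateField.adjoin_map, ← AlgHom.fieldRange_eq_map, IntermediateField.fieldRange_val]
    congr 1
    ext x
    constructor
    · rintro ⟨y, hy, rfl⟩
      exact hy
    · intro hx
      exact ⟨⟨x, IntermediateField.subset_adjoin k _ hx⟩, hx, rfl⟩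
  have halgS : Algebra.IsAlgebraic (Algebra.adjoin k S) A := by
    apply alg_adjoin
    rw [htop]
    exact ⟨fun z => isAlgebraic_algebraMap (⟨z, trivial⟩ : (⊤ : IntermediateField k A))⟩
  obtain ⟨B, hB, hBb⟩ := exists_isTranscendenceBasis_subset (R := k) (A := A) S
  have hBE := hBb.algebraMap_comp (A := E0 k K s N)
  have hcard := hBE.cardinalMk_eq_trdeg
  rw [hb] at hcard
  obtain ⟨φ⟩ : Nonempty (Fin b ≃ B) := by
    rw [← Cardinal.eq, Cardinal.mk_fin]
    exact hcard.symm
  have hmem : ∀ i : Fin b, ((φ i : A) : K) ∈ cr k K s N := fun i => hB (φ i).2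
  choose m d U c a a' hcirc hx using hmem
  have hscale : ∀ i, IsCirc k s N (m i) (d i) (fun j => U i j * (U i 0)⁻¹) (c i) :=
    fun i => (hcirc i).scale (inv_ne_zero ((hcirc i).hU 0))
  let V : ∀ i, Fin (m i + 1) → E0 k K s N := fun i j => ⟨U i j * (U i 0)⁻¹,
    ratio_mem hN (hcirc i) j 0⟩
  have hV : ∀ i, IsCirc k s N (m i) (d i) (V i) (c i) := fun i =>
    IsCirc.comap (E0 k K s N).val (hscale i)
  refine ⟨m, d, V, c, a, a', fun i => (hV i).ms, fun i => (hV i).Nd, fun i => (hV i).hU,
    fun i => (hV i).hc, fun i => (hV i).sum, fun i => (hV i).lin, ?_⟩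
  have h1 := hBE.comp_equiv φ
  convert h1 using 1
  funext i
  apply (algebraMap (E0 k K s N) K).injective
  change (E0 k K s N).val _ = ((φ i : A) : K)
  rw [hx i, map_div₀, map_smul, map_smul, map_pow, map_pow]
  change (c i (a i) • (U i (a i) * (U i 0)⁻¹) ^ d i) / (c i (a' i) • (U i (a' i) * (U i 0)⁻¹) ^ d i)
    = _
  rw [mul_pow, mul_pow, ← smul_mul_assoc, ← smul_mul_assoc]
  exact mul_div_mul_right _ _ (pow_ne_zero _ (inv_ne_zero ((hcirc i).hU 0)))

end Pool.Agent.TH466.QT
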